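import Pool.Agent.J4.H93.RZ.Defs

/-!
# Project RZ, piece DU: the dual lattice of the hexagonal lattice
-/

set_option autoImplicit false

open MeasureTheory Set

namespace Pool.Agent.J4.H93.RZ

open Pool.Agent.TH478.CE

namespace DuAux

/-- the length of the first basis vector -/
noncomputable def a4 : ℝ := (4 / 3 : ℝ) ^ (1 / 4 : ℝ)

theorem a4_pos : 0 < a4 := by unfold a4; positivity

theorem a4_sq : a4 ^ 2 * (√3 / 2) = 1 := by
  have h1 : a4 ^ 2 = c3 := by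
    have h2 : 0 ≤ a4 := a4_pos.le
    have h3 : (a4 ^ 2) ^ 2 = c3 ^ 2 := by
      unfold a4
      rw [c3_sq, ← pow_mul, ← Real.rpow_natCast, ← Real.rpow_mul (by norm_num)]
      norm_num
    exact (pow_left_inj₀ (by positivity) c3_pos.le (by norm_num)).1 h3
  rw [h1]
  unfold c3
  have h3 : √(3 : ℝ) ≠ 0 := by positivity
  field_simp

theorem hexPt_0 (p : ℤ × ℤ) : hexPt p 0 = a4 * ((p.1 : ℝ) + (p.2 : ℝ) / 2) := rfl

theorem hexPt_1 (p : ℤ × ℤ) : hexPt p 1 = a4 * (√3 / 2 * (p.2 : ℝ)) := rfl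

theorem dualPt_0 (p : ℤ × ℤ) : dualPt p 0 = -(a4 * (√3 / 2 * (p.2 : ℝ))) := rfl

theorem dualPt_1 (p : ℤ × ℤ) : dualPt p 1 = a4 * ((p.1 : ℝ) + (p.2 : ℝ) / 2) := rfl

theorem inner_two (v w : P) : inner ℝ v w = v 0 * w 0 + v 1 * w 1 := by
  rw [PiLp.inner_apply, Fin.sum_univ_two]
  simp [mul_comm]

theorem inner_dual (k m : ℤ × ℤ) :
    inner ℝ (dualPt k) (hexPt m) = (k.1 : ℝ) * m.2 - (k.2 : ℝ) * m.1 := by
  rw [inner_two, dualPt_0, dualPt_1, hexPt_0, hexPt_1]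
  have h := a4_sq
  linear_combination ((k.1 : ℝ) * m.2 - (k.2 : ℝ) * m.1) * h

theorem ext_two {v w : P} (h0 : v 0 = w 0) (h1 : v 1 = w 1) : v = w := by
  ext i
  fin_cases i
  · exact h0
  · exact h1

theorem s3_pos : 0 < √(3 : ℝ) := by positivity

end DuAux

open DuAux

theorem dualPt_mem : ∀ w : P, w ∈ Dual ↔ ∃ k : ℤ × ℤ, w = dualPt k := by
  intro w
  constructor
  · intro h
    obtain ⟨n1, h1⟩ := h (1, 0)
    obtain ⟨n2, h2⟩ := h (0, 1)
    rw [inner_two, hexPt_0, hexPt_1] at h1 h2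
    push_cast at h1 h2
    have ha := a4_sq
    have hp := a4_pos
    have hs := s3_pos
    have e1 : w 0 * a4 = n1 := by linear_combination h1
    have e2 : w 0 * a4 / 2 + w 1 * (a4 * (√3 / 2)) = n2 := by linear_combination h2
    refine ⟨(n2, -n1), ext_two ?_ ?_⟩
    · rw [dualPt_0]
      push_cast
      have : w 0 = w 0 * (a4 ^ 2 * (√3 / 2)) := by rw [ha, mul_one]
      rw [this]
      linear_combination (a4 * (√3 / 2)) * e1
    · rw [dualPt_1]
      push_cast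
      have : w 1 = w 1 * (a4 ^ 2 * (√3 / 2)) := by rw [ha, mul_one]
      rw [this]
      linear_combination a4 * e2 - a4 / 2 * e1
  · rintro ⟨k, rfl⟩ m
    refine ⟨k.1 * m.2 - k.2 * m.1, ?_⟩
    rw [inner_dual]
    push_cast
    ring

theorem dualPt_inj : Function.Injective dualPt := by
  intro k l h
  have h0 : dualPt k 0 = dualPt l 0 := by rw [h]
  have h1 : dualPt k 1 = dualPt l 1 := by rw [h]
  rw [dualPt_0, dualPt_0] at h0
  rw [dualPt_1, dualPt_1] at h1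
  have hp := a4_pos
  have hs := s3_pos
  have e1 : (k.2 : ℝ) = l.2 := by
    have h2 : a4 * (√3 / 2) ≠ 0 := by positivity
    apply mul_left_cancel₀ h2
    linear_combination -h0
  have e2 : (k.1 : ℝ) = l.1 := by
    have h3 := mul_left_cancel₀ hp.ne' h1
    rw [e1] at h3
    linarith
  exact Prod.ext (by exact_mod_cast e2) (by exact_mod_cast e1)

theorem norm_dualPt (k : ℤ × ℤ) : ‖dualPt k‖ = ‖hexPt k‖ := by
  rw [EuclideanSpace.norm_eq, EuclideanSpace.norm_eq, Fin.sum_univ_two, Fin.sum_univ_two]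
  congr 1
  have h0 : dualPt k 0 = -(hexPt k 1) := rfl
  have h1 : dualPt k 1 = hexPt k 0 := rfl
  rw [h0, h1, norm_neg, add_comm]

theorem dual_tsum (g : P → ℝ) : ∑' w : {w : P // w ∈ Dual ∧ w ≠ 0}, g w.1 =
    ∑' k : {k : ℤ × ℤ // k ≠ 0}, g (dualPt k.1) := by
  have h0 : dualPt 0 = 0 := by
    refine ext_two ?_ ?_
    · rw [dualPt_0]; simp
    · rw [dualPt_1]; simp
  let e : {k : ℤ × ℤ // k ≠ 0} ≃ {w : P // w ∈ Dual ∧ w ≠ 0} :=
    Equiv.ofBijective (fun k => ⟨dualPt k.1, (dualPt_mem _).2 ⟨k.1, rfl⟩, fun h =>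
      k.2 (dualPt_inj (h.trans h0.symm))⟩) (by
      constructor
      · intro k l h
        exact Subtype.ext (dualPt_inj (congrArg Subtype.val h))
      · rintro ⟨w, hw, hw0⟩
        obtain ⟨k, rfl⟩ := (dualPt_mem w).1 hw
        refine ⟨⟨k, fun h => hw0 ?_⟩, rfl⟩
        rw [h, h0])
  exact (e.tsum_eq (fun w : {w : P // w ∈ Dual ∧ w ≠ 0} => g w.1)).symm

end Pool.Agent.J4.H93.RZ
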