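import Pool.Agent.J4.H93.RZ.GI1

/-!
# Project RZ, piece GI2: the Mellin integral over `(0, 1)`
-/

set_option autoImplicit false

open MeasureTheory Set

namespace Pool.Agent.J4.H93.RZ

open Pool.Agent.TH478.CE

theorem gam_two (σ ρ : ℝ) (hρ : 0 < ρ) :
    IntegrableOn (fun u : ℝ => u ^ (-σ - 1) * Real.exp (-(ρ ^ 2 / u))) (Ioo 0 1) ∧
    ∫ u in Ioo (0 : ℝ) 1, u ^ (-σ - 1) * Real.exp (-(ρ ^ 2 / u)) = ρ ^ (-(2 * σ)) * Gam σ (ρ ^ 2) := by
  obtain ⟨g1, g2⟩ := gam_one σ ρ hρ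
  set G : ℝ → ℝ := fun u => u ^ (σ - 1) * Real.exp (-(u * ρ ^ 2)) with hG
  set g : ℝ → ℝ := (Ioi (1 : ℝ)).indicator G with hg
  have hkey : ∀ x ∈ Ioi (0 : ℝ), (|(-1 : ℝ)| * x ^ ((-1 : ℝ) - 1)) • g (x ^ (-1 : ℝ)) =
      (Ioo (0 : ℝ) 1).indicator (fun u => u ^ (-σ - 1) * Real.exp (-(ρ ^ 2 / u))) x := by
    intro x hx
    have hx0 : (0 : ℝ) < x := hx
    rw [hg]
    by_cases h1 : x < 1
    · have h2 : x ^ (-1 : ℝ) ∈ Ioi (1 : ℝ) := by
        rw [Real.rpow_neg_one]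
        exact (one_lt_inv₀ hx0).2 h1
      have h2' : x ∈ Ioo (0 : ℝ) 1 := ⟨hx0, h1⟩
      rw [indicator_of_mem h2, indicator_of_mem h2']
      simp only [hG, smul_eq_mul]
      rw [← Real.rpow_mul hx0.le, abs_neg, abs_one, one_mul, ← mul_assoc, ← Real.rpow_add hx0]
      congr 1
      · congr 1
        ring
      · rw [Real.rpow_neg_one]
        congr 1
        field_simp
    · have h2 : x ^ (-1 : ℝ) ∉ Ioi (1 : ℝ) := by
        rw [Real.rpow_neg_one]
        intro h3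
        exact h1 ((one_lt_inv₀ hx0).1 h3)
      have h2' : x ∉ Ioo (0 : ℝ) 1 := fun h => h1 h.2
      rw [indicator_of_notMem h2, indicator_of_notMem h2', smul_zero]
  have hint : IntegrableOn g (Ioi 0) := by
    rw [hg, integrableOn_indicator_iff measurableSet_Ioi]
    exact g1.mono_set inter_subset_left
  constructor
  · have h1 := (integrableOn_Ioi_comp_rpow_iff g (p := -1) (by norm_num)).2 hint
    have h2 := h1.congr_fun hkey measurableSet_Ioi
    have h3 := (integrableOn_indicator_iff measurableSet_Ioo).1 h2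
    have h4 : Ioo (0 : ℝ) 1 ∩ Ioi 0 = Ioo 0 1 := by
      ext x
      simp only [mem_inter_iff, mem_Ioo, mem_Ioi]
      tauto
    rwa [h4] at h3
  · have h1 := integral_comp_rpow_Ioi g (p := -1) (by norm_num)
    rw [setIntegral_congr_fun measurableSet_Ioi hkey, hg, setIntegral_indicator measurableSet_Ioo,
      setIntegral_indicator measurableSet_Ioi] at h1
    have h4 : Ioi (0 : ℝ) ∩ Ioo (0 : ℝ) 1 = Ioo 0 1 := by
      ext x
      simp only [mem_inter_iff, mem_Ioo, mem_Ioi]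
      tauto
    have h5 : Ioi (0 : ℝ) ∩ Ioi (1 : ℝ) = Ioi 1 := by
      ext x
      simp only [mem_inter_iff, mem_Ioi]
      constructor
      · exact fun h => h.2
      · exact fun h => ⟨by linarith, h⟩
    rw [h4, h5] at h1
    rw [h1]
    exact g2

end Pool.Agent.J4.H93.RZ
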