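import Pool.Agent.J4.H93.RZ.Defs

/-!
# Project RZ, piece K2: the dual part of the kernel as an integral
-/

set_option autoImplicit false

open MeasureTheory Set

namespace Pool.Agent.J4.H93.RZ

open Pool.Agent.TH478.CE

namespace K2

open Filter

theorem hexPt_norm (p : ℤ × ℤ) : ‖hexPt p‖ ^ 2 = c3 * qf p := by
  rw [← len_sq p, mul_pow, Real.sq_sqrt (by
    have h0 := qf_nonneg p
    unfold qf at h0
    exact h0)]
  unfold hexPt
  rw [EuclideanSpace.norm_sq_eq]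
  simp only [Fin.sum_univ_two, Real.norm_eq_abs, sq_abs]
  have h2 : √(3 : ℝ) ^ 2 = 3 := Real.sq_sqrt (by norm_num)
  simp
  rw [mul_pow, mul_pow, mul_pow, div_pow, h2]
  ring

/-- the index set -/
abbrev I : Type := {k : ℤ × ℤ // k ≠ 0}

/-- `π |w|` -/
noncomputable def rh (k : ℤ × ℤ) : ℝ := Real.pi * ‖hexPt k‖

lemma rh_sq (k : ℤ × ℤ) : rh k ^ 2 = Real.pi ^ 2 * (c3 * qf k) := by
  unfold rh
  rw [mul_pow, hexPt_norm]

lemma rh_lb (k : I) : 2 ≤ rh k.1 ^ 2 := by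
  rw [rh_sq]
  have h1 := one_le_qf k.2
  have h2 := one_lt_c3
  have h3 := Real.pi_gt_three
  have h4 : 1 ≤ c3 * qf k.1 := by nlinarith
  have h5 : 9 ≤ Real.pi ^ 2 := by nlinarith
  nlinarith

lemma rh_pos (k : I) : 0 < rh k.1 := by
  have h1 := rh_lb k
  have h2 : 0 ≤ rh k.1 := by unfold rh; have := Real.pi_pos; positivity
  rcases h2.lt_or_eq with h | h
  · exact h
  · rw [← h] at h1
    norm_num at h1

lemma summ_all {α : ℝ} (hα : 0 < α) :
    Summable (fun k : ℤ × ℤ => Real.exp (-(α * rh k ^ 2))) := by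
  have hpi := Real.pi_pos
  have h := summable_Th (α := α * Real.pi ^ 2) (by positivity)
  refine h.congr fun k => ?_
  rw [rh_sq]
  congr 1
  ring

lemma summ (α : ℝ) (hα : 0 < α) :
    Summable (fun k : I => Real.exp (-(α * rh k.1 ^ 2))) :=
  (summ_all hα).subtype _

lemma exp_bd {u r : ℝ} (hu : 0 < u) (hu1 : u < 1) (hr : 2 ≤ r ^ 2) :
    Real.exp (-(r ^ 2 / u)) ≤ Real.exp (-(1 / 2 * r ^ 2)) * Real.exp (-(1 ^ 2 / u)) := by
  rw [← Real.exp_add, Real.exp_le_exp]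
  have h1 : r ^ 2 / u = r ^ 2 / 2 / u + r ^ 2 / 2 / u := by
    field_simp
    ring
  have h2 : r ^ 2 / 2 ≤ r ^ 2 / 2 / u := by
    rw [le_div_iff₀ hu]
    nlinarith
  have h3 : 1 ^ 2 / u ≤ r ^ 2 / 2 / u := by
    apply div_le_div_of_nonneg_right _ hu.le
    linarith
  rw [h1]
  linarith

end K2

open K2 Filter in
/-- the dual part of the kernel; the other pieces are taken as hypotheses -/
theorem kern_two_of
    (gam_two : ∀ σ ρ : ℝ, 0 < ρ →
      IntegrableOn (fun u : ℝ => u ^ (-σ - 1) * Real.exp (-(ρ ^ 2 / u))) (Ioo 0 1) ∧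
      ∫ u in Ioo (0 : ℝ) 1, u ^ (-σ - 1) * Real.exp (-(ρ ^ 2 / u)) =
        ρ ^ (-(2 * σ)) * Gam σ (ρ ^ 2))
    (norm_dualPt : ∀ k : ℤ × ℤ, ‖dualPt k‖ = ‖hexPt k‖)
    (dual_tsum : ∀ g : P → ℝ, ∑' w : {w : P // w ∈ Dual ∧ w ≠ 0}, g w.1 =
      ∑' k : {k : ℤ × ℤ // k ≠ 0}, g (dualPt k.1))
    (poisson_hex : ∀ u : ℝ, 0 < u → ∀ z : P,
      Th2 u z = Real.pi / u * ∑' k : ℤ × ℤ,
        Real.cos (2 * Real.pi * inner ℝ (dualPt k) z) *
          Real.exp (-(Real.pi ^ 2 * ‖hexPt k‖ ^ 2 / u)))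
    (s : ℝ) (hs : 0 < s) (z : P) :
    IntegrableOn (fun u : ℝ => u ^ (s / 2 - 1) * (Th2 u z - Real.pi / u)) (Ioo 0 1) ∧
    Real.pi * ∑' w : {w : P // w ∈ Dual ∧ w ≠ 0}, Real.cos (2 * Real.pi * inner ℝ w.1 z) *
        ((Real.pi * ‖w.1‖) ^ (s - 2) * Gam ((2 - s) / 2) (Real.pi ^ 2 * ‖w.1‖ ^ 2)) =
      ∫ u in Ioo (0 : ℝ) 1, u ^ (s / 2 - 1) * (Th2 u z - Real.pi / u) := by
  have hpi := Real.pi_pos
  obtain ⟨σ, hσ⟩ : ∃ σ : ℝ, σ = (2 - s) / 2 := ⟨_, rfl⟩
  obtain ⟨c, hc⟩ : ∃ c : ℤ × ℤ → ℝ, c = fun k => Real.cos (2 * Real.pi * inner ℝ (dualPt k) z) :=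
    ⟨_, rfl⟩
  have hc1 : ∀ k, |c k| ≤ 1 := fun k => by rw [hc]; exact Real.abs_cos_le_one _
  obtain ⟨F, hF⟩ : ∃ F : I → ℝ → ℝ, F = fun k u =>
    (Real.pi * c k.1) * (u ^ (-σ - 1) * Real.exp (-(rh k.1 ^ 2 / u))) := ⟨_, rfl⟩
  have hcont0 : hexPt 0 = 0 := by
    have h := hexPt_norm 0
    have h2 : qf 0 = 0 := by unfold qf; simp
    rw [h2, mul_zero] at h
    have h3 : ‖hexPt 0‖ = 0 := by
      exact pow_eq_zero_iff (two_ne_zero) |>.1 h
    exact norm_eq_zero.1 h3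
  have hc0 : c 0 = 1 := by
    rw [hc]
    have h1 : ‖dualPt 0‖ = 0 := by rw [norm_dualPt, hcont0, norm_zero]
    have h2 : dualPt 0 = 0 := norm_eq_zero.1 h1
    simp only [h2, inner_zero_left, mul_zero, Real.cos_zero]
  -- the integrand as a series
  have hpt : ∀ u ∈ Ioo (0 : ℝ) 1, u ^ (s / 2 - 1) * (Th2 u z - Real.pi / u) = ∑' k : I, F k u := by
    intro u hu
    have hu0 : 0 < u := hu.1
    have e1 : ∀ k : ℤ × ℤ, Real.exp (-(Real.pi ^ 2 * ‖hexPt k‖ ^ 2 / u)) =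
        Real.exp (-(1 / u * rh k ^ 2)) := by
      intro k
      unfold rh
      congr 1
      ring
    have hsum : Summable (fun k : ℤ × ℤ => c k * Real.exp (-(1 / u * rh k ^ 2))) := by
      refine Summable.of_norm_bounded (summ_all (α := 1 / u) (by positivity)) (fun k => ?_)
      rw [norm_mul, Real.norm_eq_abs, Real.norm_eq_abs, abs_of_pos (Real.exp_pos _)]
      exact mul_le_of_le_one_left (Real.exp_pos _).le (hc1 k)
    have e2 := tsum_ne_zero hsum
    have e3 : Th2 u z = Real.pi / u * ∑' k : ℤ × ℤ, c k * Real.exp (-(1 / u * rh k ^ 2)) := by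
      rw [poisson_hex u hu0 z]
      congr 1
      apply tsum_congr
      intro k
      rw [e1, hc]
    have hr0 : rh 0 = 0 := by
      unfold rh
      rw [hcont0, norm_zero, mul_zero]
    have e4 : Th2 u z - Real.pi / u = Real.pi / u * ∑' k : I, c k.1 * Real.exp (-(1 / u * rh k.1 ^ 2)) := by
      rw [e3, e2, hc0, hr0]
      simp
      ring
    rw [e4, ← mul_assoc, ← tsum_mul_left]
    apply tsum_congr
    intro k
    rw [hF]
    have e5 : u ^ (s / 2 - 1) * (Real.pi / u) = Real.pi * u ^ (-σ - 1) := by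
      have : (-σ - 1) = (s / 2 - 1) - 1 := by rw [hσ]; ring
      rw [this, Real.rpow_sub_one hu0.ne' (s / 2 - 1)]
      generalize u ^ (s / 2 - 1) = A
      ring
    have e6 : (1 / u * rh k.1 ^ 2) = rh k.1 ^ 2 / u := by ring
    rw [e5, e6]
    ring
  -- integrability of the terms
  have hInt : ∀ k : I, IntegrableOn (F k) (Ioo 0 1) := by
    intro k
    rw [hF]
    exact ((gam_two σ (rh k.1) (rh_pos k)).1).const_mul _
  have hval : ∀ k : I, ∫ u in Ioo (0 : ℝ) 1, F k u =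
      (Real.pi * c k.1) * (rh k.1 ^ (s - 2) * Gam σ (rh k.1 ^ 2)) := by
    intro k
    rw [hF]
    simp only
    rw [integral_const_mul, (gam_two σ (rh k.1) (rh_pos k)).2]
    have : -(2 * σ) = s - 2 := by rw [hσ]; ring
    rw [this]
  -- the majorant
  obtain ⟨b, hb⟩ : ∃ b : ℝ → ℝ, b = fun u => u ^ (-σ - 1) * Real.exp (-(1 ^ 2 / u)) := ⟨_, rfl⟩
  have hbI : IntegrableOn b (Ioo 0 1) := by
    rw [hb]
    exact (gam_two σ 1 one_pos).1
  have hb0 : ∀ u ∈ Ioo (0 : ℝ) 1, 0 ≤ b u := by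
    intro u hu
    rw [hb]
    have hu0 : 0 < u := hu.1
    positivity
  have hbd : ∀ k : I, ∀ u ∈ Ioo (0 : ℝ) 1,
      ‖F k u‖ ≤ (Real.pi * Real.exp (-(1 / 2 * rh k.1 ^ 2))) * b u := by
    intro k u hu
    have hu0 : 0 < u := hu.1
    rw [hF, hb]
    simp only
    rw [norm_mul, norm_mul, norm_mul, Real.norm_eq_abs, Real.norm_eq_abs, Real.norm_eq_abs,
      Real.norm_eq_abs, abs_of_pos hpi, abs_of_pos (Real.exp_pos _),
      abs_of_pos (Real.rpow_pos_of_pos hu0 _)]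
    have h1 := exp_bd hu0 hu.2 (rh_lb k)
    have h2 := hc1 k.1
    have h3 : 0 < u ^ (-σ - 1) := Real.rpow_pos_of_pos hu0 _
    calc Real.pi * |c k.1| * (u ^ (-σ - 1) * Real.exp (-(rh k.1 ^ 2 / u)))
        ≤ Real.pi * 1 * (u ^ (-σ - 1) *
          (Real.exp (-(1 / 2 * rh k.1 ^ 2)) * Real.exp (-(1 ^ 2 / u)))) := by gcongr
      _ = _ := by ring
  have hsumE : Summable (fun k : I => Real.pi * Real.exp (-(1 / 2 * rh k.1 ^ 2))) :=
    (summ (1 / 2) (by norm_num)).mul_left _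
  have hFsum : Summable (fun k : I => ∫ u in Ioo (0 : ℝ) 1, ‖F k u‖) := by
    refine Summable.of_nonneg_of_le (fun k => integral_nonneg fun u => norm_nonneg _) (fun k => ?_)
      (hsumE.mul_right (∫ u in Ioo (0 : ℝ) 1, b u))
    rw [← integral_const_mul]
    exact setIntegral_mono_on (hInt k).norm (hbI.const_mul _) measurableSet_Ioo (hbd k)
  have hHS := hasSum_integral_of_summable_integral_norm (μ := volume.restrict (Ioo (0 : ℝ) 1))
    hInt hFsum
  have hEq : ∫ u in Ioo (0 : ℝ) 1, u ^ (s / 2 - 1) * (Th2 u z - Real.pi / u) =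
      ∫ u in Ioo (0 : ℝ) 1, ∑' k : I, F k u :=
    setIntegral_congr_fun measurableSet_Ioo hpt
  constructor
  · -- integrability
    have h1 : IntegrableOn (fun u => ∑' k : I, F k u) (Ioo 0 1) := by
      have hmeas : AEStronglyMeasurable (fun u => ∑' k : I, F k u)
          (volume.restrict (Ioo (0 : ℝ) 1)) := by
        refine aestronglyMeasurable_of_tendsto_ae (atTop : Filter (Finset I))
          (f := fun (t : Finset I) u => ∑ k ∈ t, F k u)
          (fun t => ?_) ?_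
        · exact (integrable_finsetSum t (fun k _ => hInt k)).aestronglyMeasurable
        · rw [ae_restrict_iff' measurableSet_Ioo]
          refine Eventually.of_forall fun u hu => ?_
          have : Summable (fun k : I => F k u) :=
            Summable.of_norm_bounded (hsumE.mul_right (b u)) (fun k => hbd k u hu)
          exact this.hasSum
      refine Integrable.mono' (hbI.const_mul (∑' k : I, Real.pi * Real.exp (-(1 / 2 * rh k.1 ^ 2))))
        hmeas ?_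
      rw [ae_restrict_iff' measurableSet_Ioo]
      refine Eventually.of_forall fun u hu => ?_
      have h2 : Summable (fun k : I => (Real.pi * Real.exp (-(1 / 2 * rh k.1 ^ 2))) * b u) :=
        hsumE.mul_right (b u)
      rw [← tsum_mul_right]
      exact tsum_of_norm_bounded h2.hasSum (fun k => hbd k u hu)
    exact h1.congr_fun (fun u hu => (hpt u hu).symm) measurableSet_Ioo
  · rw [hEq, ← hHS.tsum_eq]
    rw [dual_tsum (fun w => Real.cos (2 * Real.pi * inner ℝ w z) *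
        ((Real.pi * ‖w‖) ^ (s - 2) * Gam ((2 - s) / 2) (Real.pi ^ 2 * ‖w‖ ^ 2)))]
    rw [← tsum_mul_left]
    apply tsum_congr
    intro k
    rw [hval k, norm_dualPt, hc, ← hσ]
    have : Real.pi ^ 2 * ‖hexPt k.1‖ ^ 2 = rh k.1 ^ 2 := by unfold rh; ring
    rw [this]
    unfold rh
    ring

end Pool.Agent.J4.H93.RZ
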