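import Pool.Agent.J4.H93.RZ.Defs

/-!
Piece PO of project RZ: Poisson summation for the theta function of a translate of the hexagonal lattice.
-/

set_option autoImplicit false

open MeasureTheory Set

namespace Pool.Agent.J4.H93.RZ

open Pool.Agent.TH478.CE

namespace PO

/-- the side length -/
noncomputable def s4 : ℝ := (4 / 3 : ℝ) ^ (1 / 4 : ℝ)

theorem s4_sq : s4 ^ 2 = c3 := by
  have h2 : 0 ≤ s4 := by unfold s4; positivity
  have h3 : (s4 ^ 2) ^ 2 = c3 ^ 2 := by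
    unfold s4
    rw [c3_sq, ← pow_mul, ← Real.rpow_natCast, ← Real.rpow_mul (by norm_num)]
    norm_num
  exact (pow_left_inj₀ (by positivity) c3_pos.le (by norm_num)).1 h3

theorem norm_sq_P (x : P) : ‖x‖ ^ 2 = x 0 ^ 2 + x 1 ^ 2 := by
  rw [EuclideanSpace.norm_sq_eq, Fin.sum_univ_two, Real.norm_eq_abs, Real.norm_eq_abs, sq_abs,
    sq_abs]

theorem hex0 (p : ℤ × ℤ) : hexPt p 0 = s4 * ((p.1 : ℝ) + (p.2 : ℝ) / 2) := rfl

theorem hex1 (p : ℤ × ℤ) : hexPt p 1 = s4 * (√3 / 2 * (p.2 : ℝ)) := rfl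

theorem dual0 (p : ℤ × ℤ) : dualPt p 0 = -(s4 * (√3 / 2 * (p.2 : ℝ))) := rfl

theorem dual1 (p : ℤ × ℤ) : dualPt p 1 = s4 * ((p.1 : ℝ) + (p.2 : ℝ) / 2) := rfl

theorem inner_P (x y : P) : inner ℝ x y = x 0 * y 0 + x 1 * y 1 := by
  rw [PiLp.inner_apply, Fin.sum_univ_two]
  simp only [RCLike.inner_apply, conj_trivial]
  ring

theorem s3_sq : (√3 : ℝ) ^ 2 = 3 := Real.sq_sqrt (by norm_num)

theorem c3_s3 : c3 * √3 = 2 := by
  unfold c3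
  have : (√3 : ℝ) ≠ 0 := by positivity
  field_simp

theorem norm_hex_sq (p : ℤ × ℤ) : ‖hexPt p‖ ^ 2 = c3 * qf p := by
  rw [norm_sq_P, hex0, hex1, ← s4_sq]
  unfold qf
  have := s3_sq
  linear_combination (s4 ^ 2 * (p.2 : ℝ) ^ 2 / 4) * this

theorem shift_sq (z : P) (p : ℤ × ℤ) : ‖z + hexPt p‖ ^ 2 = ‖z‖ ^ 2 + c3 * qf p +
    (2 * s4 * z 0 * p.1 + s4 * (z 0 + √3 * z 1) * p.2) := by
  rw [norm_sq_P, norm_sq_P, PiLp.add_apply, PiLp.add_apply, hex0, hex1, ← s4_sq]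
  unfold qf
  have := s3_sq
  linear_combination (s4 ^ 2 * (p.2 : ℝ) ^ 2 / 4) * this

/-- the rotation of the indices -/
def rot : ℤ × ℤ ≃ ℤ × ℤ where
  toFun k := (k.2, -k.1)
  invFun k := (-k.2, k.1)
  left_inv k := by simp
  right_inv k := by simp

end PO

open PO in
theorem poisson_hex (u : ℝ) (hu : 0 < u) (z : P) :
    Th2 u z = Real.pi / u * ∑' k : ℤ × ℤ,
      Real.cos (2 * Real.pi * inner ℝ (dualPt k) z) * Real.exp (-(Real.pi ^ 2 * ‖hexPt k‖ ^ 2 / u)) := by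
  have hpi := Real.pi_pos
  have hpi0 : Real.pi ≠ 0 := hpi.ne'
  have hu0 : u ≠ 0 := hu.ne'
  have hc := c3_pos
  have hc2 := c3_sq
  have hs4 := s4_sq
  have hs3 := s3_sq
  have hcs := c3_s3
  obtain ⟨A, hA⟩ : ∃ A : ℝ, A = u * c3 / Real.pi := ⟨_, rfl⟩
  obtain ⟨B, hB⟩ : ∃ B : ℝ, B = u * c3 / (2 * Real.pi) := ⟨_, rfl⟩
  obtain ⟨p, hp⟩ : ∃ p : ℝ, p = -(u * s4 * z 0) / Real.pi := ⟨_, rfl⟩
  obtain ⟨q, hq⟩ : ∃ q : ℝ, q = -(u * s4 * (z 0 + √3 * z 1)) / (2 * Real.pi) := ⟨_, rfl⟩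
  have hA0 : 0 < A := by rw [hA]; positivity
  have hD : A * A - B ^ 2 = (u / Real.pi) ^ 2 := by
    rw [hA, hB]
    have : u * c3 / Real.pi * (u * c3 / Real.pi) - (u * c3 / (2 * Real.pi)) ^ 2 =
      (u / Real.pi) ^ 2 * (3 / 4 * c3 ^ 2) := by field_simp; ring
    rw [this, hc2]
    ring
  have hD0 : 0 < A * A - B ^ 2 := by rw [hD]; positivity
  have h := H809G.poisson2 A B A hA0 hD0 (p : ℂ) (q : ℂ)
  -- left side
  have e1 : ∀ k : ℤ × ℤ, Complex.exp (-Real.pi * (A * (k.1 : ℂ) ^ 2 + 2 * B * (k.1 : ℂ) * (k.2 : ℂ)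
      + A * (k.2 : ℂ) ^ 2) + 2 * Real.pi * ((p : ℂ) * (k.1 : ℂ) + (q : ℂ) * (k.2 : ℂ))) =
      ((Real.exp (u * ‖z‖ ^ 2) * Real.exp (-(u * ‖z + hexPt k‖ ^ 2)) : ℝ) : ℂ) := by
    intro k
    rw [← Real.exp_add, Complex.ofReal_exp]
    congr 1
    have : -Real.pi * (A * (k.1 : ℝ) ^ 2 + 2 * B * (k.1 : ℝ) * (k.2 : ℝ)
      + A * (k.2 : ℝ) ^ 2) + 2 * Real.pi * (p * (k.1 : ℝ) + q * (k.2 : ℝ)) =
        u * ‖z‖ ^ 2 + -(u * ‖z + hexPt k‖ ^ 2) := by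
      rw [shift_sq, hA, hB, hp, hq]
      unfold qf
      field_simp
      ring
    rw [← this]
    push_cast
    ring
  -- the dual form
  have hq1 : Real.pi ^ 2 * c3 / u * (p ^ 2 - p * q + q ^ 2) = u * ‖z‖ ^ 2 := by
    have : p ^ 2 - p * q + q ^ 2 = u ^ 2 / Real.pi ^ 2 * (s4 ^ 2 * (3 / 4 * ‖z‖ ^ 2)) := by
      rw [hp, hq, norm_sq_P]
      field_simp
      linear_combination (4 * s4 ^ 2 * z 1 ^ 2) * hs3
    rw [this, hs4]
    have : Real.pi ^ 2 * c3 / u * (u ^ 2 / Real.pi ^ 2 * (c3 * (3 / 4 * ‖z‖ ^ 2))) =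
      u * ‖z‖ ^ 2 * (3 / 4 * c3 ^ 2) := by field_simp
    rw [this, hc2]
    ring
  have hq2 : ∀ k : ℤ × ℤ, -(Real.pi ^ 2 * c3 / u * (k.1 * (2 * p - q) + k.2 * (2 * q - p))) =
      2 * Real.pi * inner ℝ (dualPt (rot k)) z := by
    intro k
    rw [inner_P, dual0, dual1, hp, hq]
    unfold rot
    simp only [Equiv.coe_fn_mk]
    push_cast
    have e : -(Real.pi ^ 2 * c3 / u * (k.1 * (2 * (-(u * s4 * z 0) / Real.pi) -
        -(u * s4 * (z 0 + √3 * z 1)) / (2 * Real.pi)) +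
        k.2 * (2 * (-(u * s4 * (z 0 + √3 * z 1)) / (2 * Real.pi)) - -(u * s4 * z 0) / Real.pi))) =
        Real.pi * c3 * s4 * (k.1 * (3 / 2 * z 0 - √3 / 2 * z 1) + k.2 * (√3 * z 1)) := by
      field_simp
      ring
    rw [e]
    have e2 : (3 / 2 * z 0 - √3 / 2 * z 1) = √3 * (√3 / 2 * z 0 - z 1 / 2) := by
      linear_combination (-(z 0) / 2) * hs3
    rw [e2]
    linear_combination (Real.pi * s4 * (k.1 * (√3 / 2 * z 0 - z 1 / 2) + k.2 * z 1)) * hcs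
  have e2 : ∀ k : ℤ × ℤ, Complex.exp (-(Real.pi / ((A * A - B ^ 2 : ℝ) : ℂ)) *
      (A * ((k.1 : ℂ) + Complex.I * p) ^ 2
        - 2 * B * ((k.1 : ℂ) + Complex.I * p) * ((k.2 : ℂ) + Complex.I * q)
        + A * ((k.2 : ℂ) + Complex.I * q) ^ 2)) =
      ((Real.exp (u * ‖z‖ ^ 2) : ℝ) : ℂ) *
        (((Real.exp (-(Real.pi ^ 2 * ‖hexPt (rot k)‖ ^ 2 / u)) : ℝ) : ℂ) *
        Complex.exp (((2 * Real.pi * inner ℝ (dualPt (rot k)) z : ℝ) : ℂ) * Complex.I)) := by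
    intro k
    rw [Complex.ofReal_exp, Complex.ofReal_exp, ← Complex.exp_add, ← Complex.exp_add]
    congr 1
    rw [← hq1, ← hq2, norm_hex_sq, hD, hA, hB]
    have hI := Complex.I_sq
    have hpic : (Real.pi : ℂ) ≠ 0 := by exact_mod_cast hpi0
    have huc : (u : ℂ) ≠ 0 := by exact_mod_cast hu0
    unfold qf rot
    simp only [Equiv.coe_fn_mk]
    push_cast
    field_simp
    ring_nf
    rw [hI]
    ring
  simp_rw [e1, e2] at h
  rw [hD, Real.sqrt_sq (by positivity), tsum_mul_left] at h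
  rw [← Complex.ofReal_tsum, tsum_mul_left] at h
  obtain ⟨G, hG⟩ : ∃ G : ℤ × ℤ → ℂ, G = fun k =>
      ((Real.exp (-(Real.pi ^ 2 * ‖hexPt k‖ ^ 2 / u)) : ℝ) : ℂ) *
        Complex.exp (((2 * Real.pi * inner ℝ (dualPt k) z : ℝ) : ℂ) * Complex.I) := ⟨_, rfl⟩
  have hrot : ∑' k : ℤ × ℤ, ((Real.exp (-(Real.pi ^ 2 * ‖hexPt (rot k)‖ ^ 2 / u)) : ℝ) : ℂ) *
        Complex.exp (((2 * Real.pi * inner ℝ (dualPt (rot k)) z : ℝ) : ℂ) * Complex.I) =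
      ∑' k, G k := by
    rw [← rot.tsum_eq G, hG]
  rw [hrot] at h
  have hGn : ∀ k, ‖G k‖ = Real.exp (-(Real.pi ^ 2 / u) * (c3 * qf k)) := by
    intro k
    rw [hG]
    simp only
    rw [norm_mul, Complex.norm_exp_ofReal_mul_I, mul_one, Complex.norm_real, Real.norm_eq_abs,
      abs_of_pos (Real.exp_pos _), norm_hex_sq]
    congr 1
    ring
  have hGs : Summable G := by
    refine Summable.of_norm ?_
    simp_rw [hGn]
    exact summable_Th (by positivity)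
  have hre : (∑' k, G k).re = ∑' k : ℤ × ℤ, Real.cos (2 * Real.pi * inner ℝ (dualPt k) z) *
      Real.exp (-(Real.pi ^ 2 * ‖hexPt k‖ ^ 2 / u)) := by
    rw [Complex.re_tsum hGs]
    refine tsum_congr fun k => ?_
    rw [hG]
    simp only
    rw [Complex.re_ofReal_mul, Complex.exp_ofReal_mul_I_re, mul_comm]
  have h1 := congrArg Complex.re h
  rw [Complex.ofReal_re, Complex.re_ofReal_mul, Complex.re_ofReal_mul, hre] at h1
  have hE := (Real.exp_pos (u * ‖z‖ ^ 2)).ne'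
  unfold Th2
  apply mul_left_cancel₀ hE
  rw [h1]
  field_simp

end Pool.Agent.J4.H93.RZ
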