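import Pool.Agent.J4.H93.RZ.Defs
import Pool.Agent.J4.H93.NS.Cfg2

/-!
# Project RZ, piece CF: the LP bound for configurations on the hexagonal torus
-/

set_option autoImplicit false

open MeasureTheory Set

namespace Pool.Agent.J4.H93.RZ

open Pool.Agent.TH478.CE Pool.Agent.J4.H93.NS

namespace CF

lemma norm_hex (p : ℤ × ℤ) : ‖hexPt p‖ ^ 2 = c3 * qf p := by
  rw [← len_sq p, mul_pow, Real.sq_sqrt (by
    have h0 := qf_nonneg p
    unfold qf at h0
    exact h0)]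
  unfold hexPt
  rw [EuclideanSpace.norm_sq_eq]
  simp only [Fin.sum_univ_two, Real.norm_eq_abs, sq_abs]
  have h2 : √(3 : ℝ) ^ 2 = 3 := Real.sq_sqrt (by norm_num)
  simp
  rw [mul_pow, mul_pow, mul_pow, div_pow, h2]
  ring

lemma hex_ne {p : ℤ × ℤ} (hp : p ≠ 0) : hexPt p ≠ 0 := by
  intro h
  have h1 := norm_hex p
  rw [h] at h1
  have h2 := one_le_qf hp
  have h3 := c3_pos
  have h4 : (0 : ℝ) < c3 * qf p := by positivity
  simp at h1
  rcases h1 with h1 | h1 <;> linarith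

lemma hex_zero : hexPt 0 = 0 := by
  unfold hexPt
  ext i
  fin_cases i <;> simp

/-- the basis of the scaled lattice -/
noncomputable def ba (N : ℕ) : P := √(N : ℝ) • hexPt (1, 0)

/-- the basis of the scaled lattice -/
noncomputable def bb (N : ℕ) : P := √(N : ℝ) • hexPt (0, 1)

lemma latPt_eq (N : ℕ) (m : ℤ × ℤ) : latPt (ba N) (bb N) m = √(N : ℝ) • hexPt m := by
  unfold latPt ba bb hexPt
  ext i
  fin_cases i
  · simp
    ring
  · simp
    ring

lemma covol_eq (N : ℕ) : covol (ba N) (bb N) = N := by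
  unfold covol ba bb hexPt
  have h1 : √(N : ℝ) * √(N : ℝ) = N := Real.mul_self_sqrt (Nat.cast_nonneg N)
  have h2 : (4 / 3 : ℝ) ^ (1 / 4 : ℝ) * (4 / 3 : ℝ) ^ (1 / 4 : ℝ) = 2 / √3 := by
    have e : (4 / 3 : ℝ) ^ (1 / 4 : ℝ) * (4 / 3 : ℝ) ^ (1 / 4 : ℝ) = √(4 / 3 : ℝ) := by
      rw [← Real.rpow_add (by norm_num), Real.sqrt_eq_rpow]
      norm_num
    rw [e, Real.sqrt_div (by norm_num)]
    congr 1
    rw [show (4 : ℝ) = 2 ^ 2 by norm_num, Real.sqrt_sq (by norm_num)]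
  have h3 : √(3 : ℝ) ≠ 0 := by positivity
  have h4 : (√(N : ℝ) * ((4 / 3 : ℝ) ^ (1 / 4 : ℝ) * (1 + 0 / 2))) *
      (√(N : ℝ) * ((4 / 3 : ℝ) ^ (1 / 4 : ℝ) * (√3 / 2 * 1))) -
      (√(N : ℝ) * ((4 / 3 : ℝ) ^ (1 / 4 : ℝ) * (√3 / 2 * 0))) *
      (√(N : ℝ) * ((4 / 3 : ℝ) ^ (1 / 4 : ℝ) * (0 + 1 / 2))) = N := by
    calc _ = (√(N : ℝ) * √(N : ℝ)) * ((4 / 3 : ℝ) ^ (1 / 4 : ℝ) * (4 / 3 : ℝ) ^ (1 / 4 : ℝ)) *
          (√3 / 2) := by ring
      _ = N := by
          rw [h1, h2]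
          field_simp
  simp only [PiLp.smul_apply, smul_eq_mul, Int.cast_one, Int.cast_zero]
  simp only [Matrix.cons_val_zero, Matrix.cons_val_one]
  rw [h4, abs_of_nonneg (Nat.cast_nonneg N)]

end CF

theorem conf_ge (u : ℝ) (hu : 0 < u) (N : ℕ) (hN : 0 < N) (x : Fin N → P)
    (hx : ∀ i j : Fin N, i ≠ j → ∀ m : ℤ × ℤ, x i - x j + hexPt m ≠ 0) :
    N * LP (u / N) ≤ Fu u x + N * En u := by
  classical
  have hN' : (0 : ℝ) < N := by exact_mod_cast hN
  have hs : √(N : ℝ) ≠ 0 := by positivity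
  have hsq : √(N : ℝ) ^ 2 = N := Real.sq_sqrt hN'.le
  have hz : ∀ (i j : Fin N) (m : ℤ × ℤ), (√(N : ℝ) • x i) - (√(N : ℝ) • x j) +
      latPt (CF.ba N) (CF.bb N) m = √(N : ℝ) • (x i - x j + hexPt m) := by
    intro i j m
    rw [CF.latPt_eq, smul_add, smul_sub]
  have hconf : IsConf (CF.ba N) (CF.bb N) N (fun i => √(N : ℝ) • x i) := by
    refine ⟨hN, ?_, (CF.covol_eq N).symm⟩
    intro j k m h
    rw [hz, smul_eq_zero, or_iff_right hs] at h
    by_cases hjk : j = k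
    · refine ⟨hjk, ?_⟩
      by_contra hm
      apply CF.hex_ne hm
      rw [hjk] at h
      simpa using h
    · exact absurd h (hx j k hjk m)
  have hα : 0 < u / N := by positivity
  have h1 := Cfg2.LP_le_real (fun f hf hp a b hab N x => per_ge f hf hp a b hab N x) hα hconf
  rw [inv_mul_eq_div, le_div_iff₀ hN'] at h1
  have hterm : ∀ (j k : Fin N) (m : ℤ × ℤ),
      Cfg2.term (u / N) (CF.ba N) (CF.bb N) (fun i => √(N : ℝ) • x i) j k m =
      if x j - x k + hexPt m = 0 then 0 else Real.exp (-(u * ‖x j - x k + hexPt m‖ ^ 2)) := by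
    intro j k m
    unfold Cfg2.term
    simp only
    rw [hz]
    by_cases h0 : x j - x k + hexPt m = 0
    · rw [if_pos h0, if_pos (by rw [h0, smul_zero])]
    · rw [if_neg h0, if_neg (by
        rw [smul_eq_zero, or_iff_right hs]
        exact h0)]
      congr 1
      rw [norm_smul, mul_pow, Real.norm_of_nonneg (Real.sqrt_nonneg _), hsq]
      field_simp
  have hdiag : ∀ j : Fin N, ∑' m : ℤ × ℤ,
      Cfg2.term (u / N) (CF.ba N) (CF.bb N) (fun i => √(N : ℝ) • x i) j j m = En u := by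
    intro j
    have hF : Summable (fun m : ℤ × ℤ => Real.exp (-u * (c3 * qf m))) := summable_Th hu
    rw [En_def']
    rw [tsum_congr (hterm j j)]
    have e1 : ∀ m : ℤ × ℤ, (if x j - x j + hexPt m = 0 then (0 : ℝ) else
        Real.exp (-(u * ‖x j - x j + hexPt m‖ ^ 2))) =
        ({m : ℤ × ℤ | m ≠ 0} : Set (ℤ × ℤ)).indicator (fun m => Real.exp (-u * (c3 * qf m))) m := by
      intro m
      rw [sub_self, zero_add]
      by_cases hm : m = 0
      · rw [if_pos (by rw [hm, CF.hex_zero])]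
        simp [hm]
      · rw [if_neg (CF.hex_ne hm), Set.indicator_of_mem (show m ∈ {m : ℤ × ℤ | m ≠ 0} from hm), CF.norm_hex]
        congr 1
        ring
    rw [tsum_congr e1, ← tsum_subtype]
    rfl
  have hoff : ∀ j k : Fin N, j ≠ k → ∑' m : ℤ × ℤ,
      Cfg2.term (u / N) (CF.ba N) (CF.bb N) (fun i => √(N : ℝ) • x i) j k m = Th2 u (x j - x k) := by
    intro j k hjk
    unfold Th2
    refine tsum_congr (fun m => ?_)
    rw [hterm, if_neg (hx j k hjk m)]
  have h2 : ∑ j : Fin N, ∑ k : Fin N, ∑' m : ℤ × ℤ,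
      Cfg2.term (u / N) (CF.ba N) (CF.bb N) (fun i => √(N : ℝ) • x i) j k m =
      Fu u x + N * En u := by
    unfold Fu
    have h3 : ∀ j k : Fin N, ∑' m : ℤ × ℤ,
        Cfg2.term (u / N) (CF.ba N) (CF.bb N) (fun i => √(N : ℝ) • x i) j k m =
        (if j = k then 0 else Th2 u (x j - x k)) + (if j = k then En u else 0) := by
      intro j k
      by_cases hjk : j = k
      · subst hjk
        rw [hdiag]
        simp
      · rw [hoff j k hjk]
        simp [hjk]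
    simp only [h3, Finset.sum_add_distrib, Finset.sum_ite_eq, Finset.mem_univ, if_true, Finset.sum_const,
      Finset.card_univ, Fintype.card_fin, nsmul_eq_mul]
  rw [h2] at h1
  linarith

end Pool.Agent.J4.H93.RZ
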