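import Pool.Agent.J4.H93.RZ.Defs
import Pool.Agent.J4.H93.NS.Final2

/-!
# Project RZ, piece DB1: `En α - LP α ≤ Dm α`
-/

set_option autoImplicit false

open MeasureTheory Set

namespace Pool.Agent.J4.H93.RZ

open Pool.Agent.TH478.CE Pool.Agent.J4.H93.NS

namespace DB1

/-- `En β ≤ 7 e^(-β c3)` for `β ≥ 3` -/
theorem En_le_seven {β : ℝ} (hβ : 3 ≤ β) : En β ≤ 7 * Real.exp (-(β * c3)) := by
  have h := En_shells β hβ
  have hc := one_lt_c3
  obtain ⟨γ, hγ⟩ : ∃ γ, γ = β * c3 := ⟨_, rfl⟩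
  have hγ3 : 3 ≤ γ := by rw [hγ]; nlinarith
  rw [← hγ] at h ⊢
  set q : ℝ := Real.exp (-γ) with hq
  have hq0 : 0 < q := Real.exp_pos _
  have e3 : Real.exp (-(3 * γ)) = q ^ 3 := by
    rw [hq, ← Real.exp_nat_mul]; congr 1; push_cast; ring
  have e4 : Real.exp (-(4 * γ)) = q ^ 4 := by
    rw [hq, ← Real.exp_nat_mul]; congr 1; push_cast; ring
  have e7 : Real.exp (-(7 * γ)) = q ^ 7 := by
    rw [hq, ← Real.exp_nat_mul]; congr 1; push_cast; ring
  have e9 : Real.exp (-(9 * γ)) = q ^ 9 := by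
    rw [hq, ← Real.exp_nat_mul]; congr 1; push_cast; ring
  rw [e3, e4, e7, e9] at h
  have hq1 : q ≤ 1 / 16 := by
    have h1 : Real.exp (-γ) ≤ Real.exp (-3) := Real.exp_le_exp.2 (by linarith)
    have h2 : Real.exp (-3) = (Real.exp 1)⁻¹ ^ 3 := by
      rw [← Real.exp_neg, ← Real.exp_nat_mul]; congr 1; norm_num
    have h3 : (Real.exp 1)⁻¹ ≤ (2.7 : ℝ)⁻¹ := by
      apply inv_anti₀ (by norm_num)
      have := Real.exp_one_gt_d9
      linarith
    have h4 : (Real.exp 1)⁻¹ ^ 3 ≤ (2.7 : ℝ)⁻¹ ^ 3 := pow_le_pow_left₀ (by positivity) h3 3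
    calc q ≤ Real.exp (-3) := h1
      _ ≤ (2.7 : ℝ)⁻¹ ^ 3 := by rw [h2]; exact h4
      _ ≤ 1 / 16 := by norm_num
  have p2 : q ^ 2 ≤ 1 / 256 := by
    calc q ^ 2 ≤ (1 / 16 : ℝ) ^ 2 := pow_le_pow_left₀ hq0.le hq1 2
      _ = 1 / 256 := by norm_num
  have p3 : q ^ 3 ≤ q * (1 / 256) := by
    calc q ^ 3 = q * q ^ 2 := by ring
      _ ≤ q * (1 / 256) := mul_le_mul_of_nonneg_left p2 hq0.le
  have hq1' : q ≤ 1 := by linarith
  have p4 : q ^ 4 ≤ q ^ 3 := pow_le_pow_of_le_one hq0.le hq1' (by norm_num)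
  have p7 : q ^ 7 ≤ q ^ 3 := pow_le_pow_of_le_one hq0.le hq1' (by norm_num)
  have p5 : q ^ 5 ≤ q * (1 / 65536) := by
    calc q ^ 5 = q * (q ^ 2 * q ^ 2) := by ring
      _ ≤ q * (1 / 256 * (1 / 256)) := by
        apply mul_le_mul_of_nonneg_left _ hq0.le
        exact mul_le_mul p2 p2 (by positivity) (by norm_num)
      _ = q * (1 / 65536) := by ring
  have p9 : q ^ 9 ≤ q ^ 5 := pow_le_pow_of_le_one hq0.le hq1' (by norm_num)
  linarith

/-- `7 β² / π ≤ e^(β c3)` for `β ≥ π` -/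
theorem sq_le_exp {β : ℝ} (hβ : Real.pi ≤ β) : 7 * (β ^ 2 / Real.pi) * Real.exp (-(β * c3)) ≤ 1 := by
  have hpi := Real.pi_gt_d2
  have hpi0 := Real.pi_pos
  have hc := one_lt_c3
  have hβ0 : 0 < β := by linarith
  have h1 : Real.exp (-(β * c3)) ≤ Real.exp (-β) := Real.exp_le_exp.2 (by nlinarith)
  have h2 : 1 + (β - 3) + (β - 3) ^ 2 / 2 ≤ Real.exp (β - 3) :=
    Real.quadratic_le_exp_of_nonneg (by linarith)
  have h3 : (20 : ℝ) ≤ Real.exp 3 := by
    have h4 : Real.exp 3 = Real.exp 1 ^ 3 := by rw [← Real.exp_nat_mul]; congr 1; norm_num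
    rw [h4]
    calc (20 : ℝ) ≤ 2.718 ^ 3 := by norm_num
      _ ≤ Real.exp 1 ^ 3 := pow_le_pow_left₀ (by norm_num) (by linarith [Real.exp_one_gt_d9]) 3
  have h5 : Real.exp β = Real.exp 3 * Real.exp (β - 3) := by rw [← Real.exp_add]; congr 1; ring
  have h6 : 20 * (1 + (β - 3) + (β - 3) ^ 2 / 2) ≤ Real.exp β := by
    rw [h5]
    apply mul_le_mul h3 h2 _ (Real.exp_pos _).le
    nlinarith
  have h7 : 7 * (β ^ 2 / Real.pi) ≤ Real.exp β := by
    have h8 : 7 * (β ^ 2 / Real.pi) ≤ 7 * (β ^ 2 / 3.14) := by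
      apply mul_le_mul_of_nonneg_left _ (by norm_num)
      exact div_le_div_of_nonneg_left (by positivity) (by norm_num) hpi.le
    have h9 : 7 * (β ^ 2 / 3.14) ≤ 20 * (1 + (β - 3) + (β - 3) ^ 2 / 2) := by
      have h10 : (0.14 : ℝ) ≤ β - 3 := by linarith
      rw [← mul_div_assoc, div_le_iff₀ (by norm_num)]
      nlinarith
    linarith
  calc 7 * (β ^ 2 / Real.pi) * Real.exp (-(β * c3)) ≤ Real.exp β * Real.exp (-β) :=
        mul_le_mul h7 h1 (Real.exp_pos _).le (Real.exp_pos _).le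
    _ = 1 := by rw [← Real.exp_add]; simp

end DB1

open DB1

theorem En_sub_LP_le (α : ℝ) (hα : 0 < α) : En α - LP α ≤ Dm α := by
  have hpi := Real.pi_gt_three
  have hpi0 := Real.pi_pos
  have key : ∀ x : ℝ, 1 - Real.exp (-x) ≤ x := fun x => by
    have := Real.add_one_le_exp (-x)
    linarith
  unfold Dm
  rcases le_or_gt α Real.pi with h | h
  · rw [if_pos h]
    have h1 := near_small hα h
    obtain ⟨β, hβ⟩ : ∃ β, β = Real.pi ^ 2 / α := ⟨_, rfl⟩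
    rw [← hβ] at h1
    have hβpi : Real.pi ≤ β := by
      rw [hβ, le_div_iff₀ hα]
      nlinarith
    have h2 := En_le_seven (β := β) (by linarith)
    have h3 := key (10 ^ (-8 : ℤ) * β)
    have h4 := En_nonneg β
    have h5 := sq_le_exp hβpi
    have h6 : (1 - Real.exp (-(10 ^ (-8 : ℤ) * β))) * En β ≤
        10 ^ (-8 : ℤ) * β * (7 * Real.exp (-(β * c3))) := by
      calc (1 - Real.exp (-(10 ^ (-8 : ℤ) * β))) * En β ≤ 10 ^ (-8 : ℤ) * β * En β :=
            mul_le_mul_of_nonneg_right h3 h4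
        _ ≤ _ := by
          apply mul_le_mul_of_nonneg_left h2
          have : 0 < β := by linarith
          positivity
    have h7 : Real.pi / α * ((1 - Real.exp (-(10 ^ (-8 : ℤ) * β))) * En β) ≤
        Real.pi / α * (10 ^ (-8 : ℤ) * β * (7 * Real.exp (-(β * c3)))) :=
      mul_le_mul_of_nonneg_left h6 (by positivity)
    have h8 : Real.pi / α = β / Real.pi := by rw [hβ]; field_simp
    have h9 : Real.pi / α * (10 ^ (-8 : ℤ) * β * (7 * Real.exp (-(β * c3)))) =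
        10 ^ (-8 : ℤ) * (7 * (β ^ 2 / Real.pi) * Real.exp (-(β * c3))) := by
      rw [h8]; ring
    have h10 : (0 : ℝ) < 10 ^ (-8 : ℤ) := by positivity
    have h11 : 10 ^ (-8 : ℤ) * (7 * (β ^ 2 / Real.pi) * Real.exp (-(β * c3))) ≤
        10 ^ (-8 : ℤ) * 1 := mul_le_mul_of_nonneg_left h5 h10.le
    have h12 : (0 : ℝ) ≤ 10 ^ (-8 : ℤ) * (7 * (α * Real.exp (-(α * c3)))) := by positivity
    have h13 : En α - LP α ≤ 10 ^ (-8 : ℤ) * 1 :=
      (sub_le_iff_le_add'.2 h1).trans (h7.trans (h9.le.trans h11))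
    calc En α - LP α ≤ 10 ^ (-8 : ℤ) * 1 := h13
      _ ≤ 10 ^ (-8 : ℤ) * 1 + 10 ^ (-8 : ℤ) * (7 * (α * Real.exp (-(α * c3)))) :=
        le_add_of_nonneg_right h12
      _ = 10 ^ (-8 : ℤ) * (1 + 7 * (α * Real.exp (-(α * c3)))) := (mul_add _ _ _).symm
  · rw [if_neg (not_le.2 h)]
    have h1 := exp_En_le_LP h.le
    have h2 := En_le_seven (β := α) (by linarith)
    have h3 := key (10 ^ (-8 : ℤ) * α)
    have h4 := En_nonneg α
    have h5 : (1 - Real.exp (-(10 ^ (-8 : ℤ) * α))) * En α ≤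
        10 ^ (-8 : ℤ) * α * (7 * Real.exp (-(α * c3))) := by
      calc (1 - Real.exp (-(10 ^ (-8 : ℤ) * α))) * En α ≤ 10 ^ (-8 : ℤ) * α * En α :=
            mul_le_mul_of_nonneg_right h3 h4
        _ ≤ _ := by
          apply mul_le_mul_of_nonneg_left h2
          positivity
    have h6 : 10 ^ (-8 : ℤ) * α * (7 * Real.exp (-(α * c3))) =
        10 ^ (-8 : ℤ) * (0 + 7 * (α * Real.exp (-(α * c3)))) := by ring
    have h7 : (1 - Real.exp (-(10 ^ (-8 : ℤ) * α))) * En α =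
        En α - Real.exp (-(10 ^ (-8 : ℤ) * α)) * En α := by ring
    rw [h7] at h5
    calc En α - LP α ≤ En α - Real.exp (-(10 ^ (-8 : ℤ) * α)) * En α := sub_le_sub_left h1 _
      _ ≤ _ := h5.trans h6.le

end Pool.Agent.J4.H93.RZ
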