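import Pool.Agent.J4.H93.RZ.Defs

/-!
# Project RZ, piece DB2: the gamma integrals of the majorant `Dm`
-/

set_option autoImplicit false

open MeasureTheory Set

namespace Pool.Agent.J4.H93.RZ

open Pool.Agent.TH478.CE

namespace DB2

lemma part1 {σ : ℝ} (hσ : 0 < σ) {b : ℝ} (hb : 0 < b) :
    IntegrableOn (fun u : ℝ => u ^ (σ - 1) * (if u ≤ b then (1 : ℝ) else 0)) (Ioi 0) ∧
    ∫ u in Ioi (0 : ℝ), u ^ (σ - 1) * (if u ≤ b then (1 : ℝ) else 0) = b ^ σ / σ := by
  have e : EqOn (fun u : ℝ => u ^ (σ - 1) * (if u ≤ b then (1 : ℝ) else 0))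
      ((Ioc 0 b).indicator (fun u : ℝ => u ^ (σ - 1))) (Ioi (0 : ℝ)) := by
    intro u hu
    rw [mem_Ioi] at hu
    by_cases h : u ≤ b
    · have hm : u ∈ Ioc 0 b := ⟨hu, h⟩
      simp [h, hm]
    · simp [h]
  have hi : IntegrableOn (fun u : ℝ => u ^ (σ - 1)) (Ioc 0 b) := by
    have := intervalIntegral.intervalIntegrable_rpow' (a := 0) (b := b) (r := σ - 1) (by linarith)
    rwa [intervalIntegrable_iff_integrableOn_Ioc_of_le hb.le] at this
  constructor
  · rw [integrableOn_congr_fun e measurableSet_Ioi]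
    exact (hi.integrable_indicator measurableSet_Ioc).integrableOn
  · rw [setIntegral_congr_fun measurableSet_Ioi e, setIntegral_indicator measurableSet_Ioc]
    have h1 : Ioi (0 : ℝ) ∩ Ioc 0 b = Ioc 0 b := inter_eq_right.2 (fun x hx => hx.1)
    rw [h1, ← intervalIntegral.integral_of_le hb.le, integral_rpow (Or.inl (by linarith))]
    simp [Real.zero_rpow hσ.ne']

lemma part2 {σ : ℝ} (hσ : 0 < σ) {r : ℝ} (hr : 0 < r) :
    IntegrableOn (fun u : ℝ => u ^ σ * Real.exp (-(r * u))) (Ioi 0) ∧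
    ∫ u in Ioi (0 : ℝ), u ^ σ * Real.exp (-(r * u)) = (1 / r) ^ (σ + 1) * Real.Gamma (σ + 1) := by
  constructor
  · have := integrableOn_rpow_mul_exp_neg_mul_rpow (s := σ) (p := 1) (b := r) (by linarith) one_pos hr
    simpa [neg_mul] using this
  · have := Real.integral_rpow_mul_exp_neg_mul_Ioi (a := σ + 1) (r := r) (by linarith) hr
    simpa using this

end DB2

theorem Dm_int (s N : ℝ) (hs : 0 < s) (hN : 0 < N) :
    IntegrableOn (fun u : ℝ => u ^ (s / 2 - 1) * Dm (u / N)) (Ioi 0) ∧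
    1 / Real.Gamma (s / 2) * ∫ u in Ioi (0 : ℝ), u ^ (s / 2 - 1) * Dm (u / N) =
      N ^ (s / 2) * (10 ^ (-8 : ℤ) * (Real.pi ^ (s / 2) / Real.Gamma (s / 2 + 1) +
        7 * (s / 2) * c3 ^ (-(s / 2) - 1))) := by
  obtain ⟨σ, hσ⟩ : ∃ σ : ℝ, σ = s / 2 := ⟨_, rfl⟩
  rw [← hσ]
  have hσ0 : 0 < σ := by rw [hσ]; positivity
  have hc := c3_pos
  have hpi := Real.pi_pos
  have hr : 0 < c3 / N := by positivity
  have hb : 0 < N * Real.pi := by positivity
  obtain ⟨i1, v1⟩ := DB2.part1 hσ0 hb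
  obtain ⟨i2, v2⟩ := DB2.part2 hσ0 hr
  have e : EqOn (fun u : ℝ => u ^ (σ - 1) * Dm (u / N))
      (fun u : ℝ => 10 ^ (-8 : ℤ) * (u ^ (σ - 1) * (if u ≤ N * Real.pi then (1 : ℝ) else 0)) +
        10 ^ (-8 : ℤ) * (7 / N) * (u ^ σ * Real.exp (-(c3 / N * u)))) (Ioi (0 : ℝ)) := by
    intro u hu
    rw [mem_Ioi] at hu
    have h1 : u ^ σ = u ^ (σ - 1) * u := by
      rw [← Real.rpow_add_one hu.ne']
      congr 1
      ring
    have h2 : (u / N ≤ Real.pi) ↔ u ≤ N * Real.pi := by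
      rw [div_le_iff₀ hN, mul_comm]
    have h3 : Real.exp (-(u / N * c3)) = Real.exp (-(c3 / N * u)) := by
      congr 1
      ring
    simp only
    unfold Dm
    rw [h1, h3]
    by_cases h : u ≤ N * Real.pi
    · have h' := h2.2 h
      rw [if_pos h, if_pos h']
      ring
    · have h' : ¬ (u / N ≤ Real.pi) := fun h' => h (h2.1 h')
      rw [if_neg h, if_neg h']
      ring
  constructor
  · rw [integrableOn_congr_fun e measurableSet_Ioi]
    exact (i1.const_mul _).add (i2.const_mul _)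
  · rw [setIntegral_congr_fun measurableSet_Ioi e, integral_add (i1.const_mul _) (i2.const_mul _),
      integral_const_mul, integral_const_mul, v1, v2]
    have hG : 0 < Real.Gamma σ := Real.Gamma_pos_of_pos hσ0
    rw [Real.Gamma_add_one hσ0.ne', Real.mul_rpow hN.le hpi.le]
    have h4 : (1 / (c3 / N)) ^ (σ + 1) = N ^ σ * N * c3 ^ (-σ - 1) := by
      rw [one_div_div, Real.div_rpow hN.le hc.le, Real.rpow_add_one hN.ne',
        show -σ - 1 = -(σ + 1) by ring, Real.rpow_neg hc.le]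
      rfl
    rw [h4]
    field_simp

end Pool.Agent.J4.H93.RZ
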