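import Pool.Agent.J4.H93.RZ.Defs

/-!
# Project RZ, piece SC: the energy of the configuration `(1/m) V`
-/

set_option autoImplicit false

open MeasureTheory Set

namespace Pool.Agent.J4.H93.RZ

open Pool.Agent.TH478.CE

namespace ScAux

theorem hexPt_norm (p : ℤ × ℤ) : ‖hexPt p‖ ^ 2 = c3 * qf p := by
  rw [← len_sq p, mul_pow, Real.sq_sqrt (by
    have h0 := qf_nonneg p
    unfold qf at h0
    exact h0)]
  unfold hexPt
  rw [EuclideanSpace.norm_sq_eq]
  simp only [Fin.sum_univ_two, Real.norm_eq_abs, sq_abs]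
  have h2 : √(3 : ℝ) ^ 2 = 3 := Real.sq_sqrt (by norm_num)
  simp
  rw [mul_pow, mul_pow, mul_pow, div_pow, h2]
  ring

/-- the bijection `(j, k) ↦ c - j + m k` -/
def ph (m : ℕ) [NeZero m] (c : ℤ) : Fin m × ℤ ≃ ℤ :=
  (Equiv.prodComm (Fin m) ℤ).trans
    (((Equiv.neg ℤ).prodCongr (Equiv.refl (Fin m))).trans
      ((Int.divModEquiv m).symm.trans (Equiv.subLeft c)))

theorem ph_apply (m : ℕ) [NeZero m] (c : ℤ) (j : Fin m) (k : ℤ) :
    ph m c (j, k) = c - ((j : ℕ) : ℤ) + m * k := by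
  show c - (-k * m + ((j : ℕ) : ℤ)) = _
  ring

/-- the bijection in two dimensions -/
def Ph (m : ℕ) [NeZero m] (c : ℤ × ℤ) : (Fin m × Fin m) × (ℤ × ℤ) ≃ ℤ × ℤ :=
  (Equiv.prodProdProdComm (Fin m) (Fin m) ℤ ℤ).trans ((ph m c.1).prodCongr (ph m c.2))

theorem Ph_apply (m : ℕ) [NeZero m] (c : ℤ × ℤ) (j : Fin m × Fin m) (k : ℤ × ℤ) :
    Ph m c (j, k) = (c.1 - ((j.1 : ℕ) : ℤ) + m * k.1, c.2 - ((j.2 : ℕ) : ℤ) + m * k.2) := by
  show (ph m c.1 (j.1, k.1), ph m c.2 (j.2, k.2)) = _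
  rw [ph_apply, ph_apply]

/-- the coordinates of `i` -/
def ci {m : ℕ} (i : Fin m × Fin m) : ℤ × ℤ := (((i.1 : ℕ) : ℤ), ((i.2 : ℕ) : ℤ))

theorem star_diff (m : ℕ) [NeZero m] (i j : Fin m × Fin m) (k : ℤ × ℤ) :
    star m i - star m j + hexPt k = (1 / (m : ℝ)) • hexPt (Ph m (ci i) (j, k)) := by
  have hm : (m : ℝ) ≠ 0 := Nat.cast_ne_zero.2 (NeZero.ne m)
  rw [Ph_apply]
  unfold star ci hexPt
  ext t
  fin_cases t
  · simp
    field_simp
    ring
  · simp
    field_simp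

theorem norm_diff (m : ℕ) [NeZero m] (i j : Fin m × Fin m) (k : ℤ × ℤ) :
    ‖star m i - star m j + hexPt k‖ ^ 2 =
      1 / (m : ℝ) ^ 2 * (c3 * qf (Ph m (ci i) (j, k))) := by
  rw [star_diff, norm_smul, mul_pow, hexPt_norm, Real.norm_eq_abs, sq_abs]
  ring

theorem Ph_zero (m : ℕ) [NeZero m] (i : Fin m × Fin m) : Ph m (ci i) (i, 0) = 0 := by
  rw [Ph_apply]
  unfold ci
  simp

theorem row (u : ℝ) (hu : 0 < u) (m : ℕ) [NeZero m] (i : Fin m × Fin m) :
    ∑ j : Fin m × Fin m, Th2 u (star m i - star m j) = Th (u / (m : ℝ) ^ 2) := by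
  have hm : (0 : ℝ) < (m : ℝ) := Nat.cast_pos.2 (Nat.pos_of_neZero m)
  have hα : 0 < u / (m : ℝ) ^ 2 := by positivity
  have hS := summable_Th hα
  have hS' : Summable (fun p : (Fin m × Fin m) × (ℤ × ℤ) =>
      Real.exp (-(u / (m : ℝ) ^ 2) * (c3 * qf (Ph m (ci i) p)))) :=
    (Ph m (ci i)).summable_iff.2 hS
  unfold Th
  rw [← (Ph m (ci i)).tsum_eq, Summable.tsum_prod hS', tsum_fintype]
  refine Finset.sum_congr rfl fun j _ => ?_
  unfold Th2
  refine tsum_congr fun k => ?_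
  rw [norm_diff]
  congr 1
  ring

theorem Th2_zero (u : ℝ) : Th2 u 0 = Th u := by
  unfold Th2 Th
  refine tsum_congr fun k => ?_
  rw [zero_add, hexPt_norm]
  congr 1
  ring

end ScAux

open ScAux

theorem star_eq (u : ℝ) (hu : 0 < u) (m : ℕ) (hm : 0 < m) :
    Fu u (star m) + (m : ℝ) ^ 2 * En u = (m : ℝ) ^ 2 * En (u / (m : ℝ) ^ 2) := by
  have : NeZero m := ⟨hm.ne'⟩
  have hm' : (0 : ℝ) < (m : ℝ) := Nat.cast_pos.2 hm
  have hα : 0 < u / (m : ℝ) ^ 2 := by positivity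
  have key : ∀ i : Fin m × Fin m,
      (∑ j, if i = j then 0 else Th2 u (star m i - star m j)) =
        En (u / (m : ℝ) ^ 2) - En u := by
    intro i
    have h1 : ∀ j, (if i = j then 0 else Th2 u (star m i - star m j)) =
        Th2 u (star m i - star m j) - (if i = j then Th u else 0) := by
      intro j
      by_cases h : i = j
      · subst h
        rw [if_pos rfl, if_pos rfl, sub_self, Th2_zero, sub_self]
      · rw [if_neg h, if_neg h, sub_zero]
    rw [Finset.sum_congr rfl fun j _ => h1 j, Finset.sum_sub_distrib, row u hu m i,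
      Finset.sum_ite_eq, if_pos (Finset.mem_univ _), Th_eq hα, Th_eq hu]
    ring
  unfold Fu
  rw [Finset.sum_congr rfl fun i _ => key i, Finset.sum_const, Finset.card_univ,
    Fintype.card_prod, Fintype.card_fin, nsmul_eq_mul]
  push_cast
  ring

theorem star_ne (m : ℕ) (hm : 0 < m) (i j : Fin m × Fin m) (h : i ≠ j) (k : ℤ × ℤ) :
    star m i - star m j + hexPt k ≠ 0 := by
  have : NeZero m := ⟨hm.ne'⟩
  have hm' : (0 : ℝ) < (m : ℝ) := Nat.cast_pos.2 hm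
  intro h0
  have h1 := norm_diff m i j k
  rw [h0, norm_zero] at h1
  have h2 : Ph m (ci i) (j, k) ≠ 0 := by
    intro h3
    rw [← Ph_zero m i] at h3
    have h4 := (Ph m (ci i)).injective h3
    exact h (congrArg Prod.fst h4).symm
  have h3 := one_le_qf h2
  have h4 := c3_pos
  have h5 : 0 < 1 / (m : ℝ) ^ 2 * (c3 * qf (Ph m (ci i) (j, k))) := by positivity
  rw [← h1] at h5
  norm_num at h5

end Pool.Agent.J4.H93.RZ
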