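import Pool.Agent.J4.H93.RZ.K1
import Pool.Agent.J4.H93.RZ.K2
import Pool.Agent.J4.H93.RZ.GI2
import Pool.Agent.J4.H93.RZ.Du
import Pool.Agent.J4.H93.RZ.PO
import Pool.Agent.J4.H93.RZ.CF
import Pool.Agent.J4.H93.RZ.DB1
import Pool.Agent.J4.H93.RZ.DB2
import Pool.Agent.J4.H93.RZ.Sc

/-!
# Project RZ: assembly
-/

set_option autoImplicit false

open MeasureTheory Set

namespace Pool.Agent.J4.H93.RZ

open Pool.Agent.TH478.CE Pool.Agent.J4.H93.NS

namespace As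

theorem kern_two (s : ℝ) (hs : 0 < s) (z : P) :
    IntegrableOn (fun u : ℝ => u ^ (s / 2 - 1) * (Th2 u z - Real.pi / u)) (Ioo 0 1) ∧
    Real.pi * ∑' w : {w : P // w ∈ Dual ∧ w ≠ 0}, Real.cos (2 * Real.pi * inner ℝ w.1 z) *
        ((Real.pi * ‖w.1‖) ^ (s - 2) * Gam ((2 - s) / 2) (Real.pi ^ 2 * ‖w.1‖ ^ 2)) =
      ∫ u in Ioo (0 : ℝ) 1, u ^ (s / 2 - 1) * (Th2 u z - Real.pi / u) :=
  kern_two_of (fun σ ρ hρ => gam_two σ ρ hρ) norm_dualPt dual_tsum
    (fun u hu z => poisson_hex u hu z) s hs z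

theorem Kp_eq (s : ℝ) (hs : 0 < s) (z : P) (hz : ∀ m : ℤ × ℤ, z + hexPt m ≠ 0) :
    Kp s z = 1 / Real.Gamma (s / 2) *
      ((∫ u in Ioo (0 : ℝ) 1, u ^ (s / 2 - 1) * (Th2 u z - Real.pi / u)) +
        ∫ u in Ioi (1 : ℝ), u ^ (s / 2 - 1) * Th2 u z) := by
  unfold Kp
  rw [(kern_one s hs z hz).2, ← (kern_two s hs z).2]
  ring

variable {ι : Type} [Fintype ι] [DecidableEq ι]

/-- sum over the pairs -/
def ps (g : ι → ι → ℝ) : ℝ := ∑ i, ∑ j, if i = j then 0 else g i j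

theorem ps_congr {g g' : ι → ι → ℝ} (h : ∀ i j, i ≠ j → g i j = g' i j) : ps g = ps g' := by
  unfold ps
  refine Finset.sum_congr rfl fun i _ => Finset.sum_congr rfl fun j _ => ?_
  split_ifs with hij
  · rfl
  · exact h i j hij

theorem ps_int {S : Set ℝ} {g : ι → ι → ℝ → ℝ} (h : ∀ i j, i ≠ j → IntegrableOn (g i j) S) :
    IntegrableOn (fun u => ps (fun i j => g i j u)) S ∧
    ps (fun i j => ∫ u in S, g i j u) = ∫ u in S, ps (fun i j => g i j u) := by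
  have h1 : ∀ i j, IntegrableOn (fun u => if i = j then 0 else g i j u) S := by
    intro i j
    by_cases hij : i = j
    · simp [hij]
    · simp only [hij, if_false]
      exact h i j hij
  constructor
  · unfold ps
    apply integrable_finsetSum
    intro i _
    apply integrable_finsetSum
    intro j _
    exact h1 i j
  · unfold ps
    rw [integral_finsetSum _ (fun i _ => integrable_finsetSum _ fun j _ => h1 i j)]
    refine Finset.sum_congr rfl fun i _ => ?_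
    rw [integral_finsetSum _ (fun j _ => h1 i j)]
    refine Finset.sum_congr rfl fun j _ => ?_
    by_cases hij : i = j
    · simp [hij]
    · simp only [hij, if_false]

theorem ps_lin (c : ℝ) (g : ι → ι → ℝ) : ps (fun i j => c * g i j) = c * ps g := by
  unfold ps
  rw [Finset.mul_sum]
  refine Finset.sum_congr rfl fun i _ => ?_
  rw [Finset.mul_sum]
  refine Finset.sum_congr rfl fun j _ => ?_
  split_ifs <;> ring

theorem ps_add (g g' : ι → ι → ℝ) : ps (fun i j => g i j + g' i j) = ps g + ps g' := by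
  unfold ps
  rw [← Finset.sum_add_distrib]
  refine Finset.sum_congr rfl fun i _ => ?_
  rw [← Finset.sum_add_distrib]
  refine Finset.sum_congr rfl fun j _ => ?_
  split_ifs <;> ring

theorem ps_sub (g g' : ι → ι → ℝ) : ps (fun i j => g i j - g' i j) = ps g - ps g' := by
  unfold ps
  rw [← Finset.sum_sub_distrib]
  refine Finset.sum_congr rfl fun i _ => ?_
  rw [← Finset.sum_sub_distrib]
  refine Finset.sum_congr rfl fun j _ => ?_
  split_ifs <;> ring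

theorem ps_const (c : ℝ) : ps (fun (_ _ : ι) => c) =
    ((Fintype.card ι : ℝ) ^ 2 - Fintype.card ι) * c := by
  unfold ps
  have h : ∀ i : ι, (∑ j : ι, if i = j then 0 else c) = ((Fintype.card ι : ℝ) - 1) * c := by
    intro i
    have e : ∀ j : ι, (if i = j then 0 else c) = c - if i = j then c else 0 := by
      intro j
      split_ifs <;> ring
    rw [Finset.sum_congr rfl fun j _ => e j, Finset.sum_sub_distrib, Finset.sum_ite_eq]
    simp
    ring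
  rw [Finset.sum_congr rfl fun i _ => h i]
  simp
  ring

theorem Ep_eq (s : ℝ) (hs : 0 < s) (x : ι → P)
    (hx : ∀ i j : ι, i ≠ j → ∀ m : ℤ × ℤ, x i - x j + hexPt m ≠ 0) :
    IntegrableOn (fun u : ℝ => u ^ (s / 2 - 1) * (Fu u x -
      ((Fintype.card ι : ℝ) ^ 2 - Fintype.card ι) * (Real.pi / u))) (Ioo 0 1) ∧
    IntegrableOn (fun u : ℝ => u ^ (s / 2 - 1) * Fu u x) (Ioi 1) ∧
    Ep s x = 1 / Real.Gamma (s / 2) *
      ((∫ u in Ioo (0 : ℝ) 1, u ^ (s / 2 - 1) * (Fu u x -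
        ((Fintype.card ι : ℝ) ^ 2 - Fintype.card ι) * (Real.pi / u))) +
        ∫ u in Ioi (1 : ℝ), u ^ (s / 2 - 1) * Fu u x) := by
  have h1 := ps_int (S := Ioo 0 1)
    (g := fun i j : ι => fun u : ℝ => u ^ (s / 2 - 1) * (Th2 u (x i - x j) - Real.pi / u))
    (fun i j _ => (kern_two s hs (x i - x j)).1)
  have h2 := ps_int (S := Ioi 1)
    (g := fun i j : ι => fun u : ℝ => u ^ (s / 2 - 1) * Th2 u (x i - x j))
    (fun i j hij => (kern_one s hs (x i - x j) (hx i j hij)).1)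
  have e1 : (fun u : ℝ => ps (fun i j : ι => u ^ (s / 2 - 1) *
      (Th2 u (x i - x j) - Real.pi / u))) = fun u : ℝ => u ^ (s / 2 - 1) * (Fu u x -
      ((Fintype.card ι : ℝ) ^ 2 - Fintype.card ι) * (Real.pi / u)) := by
    funext u
    rw [ps_lin, ps_sub, ps_const]
    rfl
  have e2 : (fun u : ℝ => ps (fun i j : ι => u ^ (s / 2 - 1) * Th2 u (x i - x j))) =
      fun u : ℝ => u ^ (s / 2 - 1) * Fu u x := by
    funext u
    rw [ps_lin]
    rfl
  rw [e1] at h1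
  rw [e2] at h2
  refine ⟨h1.1, h2.1, ?_⟩
  rw [← h1.2, ← h2.2, ← ps_add, ← ps_lin]
  exact ps_congr fun i j hij => Kp_eq s hs _ (hx i j hij)

theorem diff_le {s : ℝ} {m : ℕ} (hm : 0 < m) (x : Fin (m ^ 2) → P)
    (hx : ∀ i j : Fin (m ^ 2), i ≠ j → ∀ k : ℤ × ℤ, x i - x j + hexPt k ≠ 0) {u : ℝ} (hu : 0 < u) :
    u ^ (s / 2 - 1) * (Fu u (star m) - Fu u x) ≤
      (m : ℝ) ^ 2 * (u ^ (s / 2 - 1) * Dm (u / (m : ℝ) ^ 2)) := by
  have hm' : (0 : ℝ) < m := by exact_mod_cast hm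
  have h1 := star_eq u hu m hm
  have h2 := conf_ge u hu (m ^ 2) (by positivity) x hx
  have h3 := En_sub_LP_le (u / (m : ℝ) ^ 2) (by positivity)
  push_cast at h2
  have h4 : 0 < (m : ℝ) ^ 2 := by positivity
  have h5 : Fu u (star m) - Fu u x ≤ (m : ℝ) ^ 2 * Dm (u / (m : ℝ) ^ 2) := by
    nlinarith
  have h6 : 0 ≤ u ^ (s / 2 - 1) := by positivity
  calc u ^ (s / 2 - 1) * (Fu u (star m) - Fu u x) ≤
      u ^ (s / 2 - 1) * ((m : ℝ) ^ 2 * Dm (u / (m : ℝ) ^ 2)) := mul_le_mul_of_nonneg_left h5 h6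
    _ = _ := by ring

theorem Dm_nonneg {α : ℝ} (hα : 0 < α) : 0 ≤ Dm α := by
  unfold Dm
  split_ifs <;> positivity

end As

open As

theorem riesz_near (s : ℝ) (hs : 0 < s) (m : ℕ) (hm : 0 < m) (x : Fin (m ^ 2) → P)
    (hx : ∀ i j : Fin (m ^ 2), i ≠ j → ∀ k : ℤ × ℤ, x i - x j + hexPt k ≠ 0) :
    Ep s (star m) ≤ Ep s x + ((m : ℝ) ^ 2) ^ (1 + s / 2) *
      (10 ^ (-8 : ℤ) * (Real.pi ^ (s / 2) / Real.Gamma (s / 2 + 1) +
        7 * (s / 2) * c3 ^ (-(s / 2) - 1))) := by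
  have hm' : (0 : ℝ) < m := by exact_mod_cast hm
  have hN : (0 : ℝ) < (m : ℝ) ^ 2 := by positivity
  have hG : 0 < Real.Gamma (s / 2) := Real.Gamma_pos_of_pos (by positivity)
  obtain ⟨a1, a2, a3⟩ := Ep_eq s hs (star m) (fun i j hij k => star_ne m hm i j hij k)
  obtain ⟨b1, b2, b3⟩ := Ep_eq s hs x hx
  obtain ⟨d1, d2⟩ := Dm_int s ((m : ℝ) ^ 2) hs hN
  simp only [Fintype.card_prod, Fintype.card_fin] at a1 a3 b1 b3
  have ec : ((m * m : ℕ) : ℝ) = ((m ^ 2 : ℕ) : ℝ) := by push_cast; ring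
  rw [ec] at a1 a3
  have c1 : (∫ u in Ioo (0 : ℝ) 1, u ^ (s / 2 - 1) * (Fu u (star m) -
        (((m ^ 2 : ℕ) : ℝ) ^ 2 - ((m ^ 2 : ℕ) : ℝ)) * (Real.pi / u))) -
      (∫ u in Ioo (0 : ℝ) 1, u ^ (s / 2 - 1) * (Fu u x -
        (((m ^ 2 : ℕ) : ℝ) ^ 2 - ((m ^ 2 : ℕ) : ℝ)) * (Real.pi / u))) ≤
      (m : ℝ) ^ 2 * ∫ u in Ioo (0 : ℝ) 1, u ^ (s / 2 - 1) * Dm (u / (m : ℝ) ^ 2) := by
    rw [← integral_sub a1 b1, ← integral_const_mul]
    apply setIntegral_mono_on (a1.sub b1)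
      ((d1.mono_set Ioo_subset_Ioi_self).const_mul _) measurableSet_Ioo
    intro u hu
    have h := diff_le (s := s) hm x hx hu.1
    refine le_trans (le_of_eq ?_) h
    simp only [Pi.sub_apply]
    ring
  have hsub : Ioi (1 : ℝ) ⊆ Ioi 0 := Ioi_subset_Ioi zero_le_one
  have c2 : (∫ u in Ioi (1 : ℝ), u ^ (s / 2 - 1) * Fu u (star m)) -
      (∫ u in Ioi (1 : ℝ), u ^ (s / 2 - 1) * Fu u x) ≤
      (m : ℝ) ^ 2 * ∫ u in Ioi (1 : ℝ), u ^ (s / 2 - 1) * Dm (u / (m : ℝ) ^ 2) := by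
    rw [← integral_sub a2 b2, ← integral_const_mul]
    apply setIntegral_mono_on (a2.sub b2)
      ((d1.mono_set hsub).const_mul _) measurableSet_Ioi
    intro u hu
    have h := diff_le (s := s) hm x hx (lt_trans zero_lt_one hu)
    refine le_trans (le_of_eq ?_) h
    simp only [Pi.sub_apply]
    ring
  have c3' : (∫ u in Ioo (0 : ℝ) 1, u ^ (s / 2 - 1) * Dm (u / (m : ℝ) ^ 2)) +
      ∫ u in Ioi (1 : ℝ), u ^ (s / 2 - 1) * Dm (u / (m : ℝ) ^ 2) ≤
      ∫ u in Ioi (0 : ℝ), u ^ (s / 2 - 1) * Dm (u / (m : ℝ) ^ 2) := by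
    have hd : Disjoint (Ioo (0 : ℝ) 1) (Ioi 1) := by
      rw [Set.disjoint_left]
      intro u h1 h2
      exact absurd h1.2 (not_lt.2 (le_of_lt h2))
    rw [← setIntegral_union hd measurableSet_Ioi (d1.mono_set Ioo_subset_Ioi_self)
      (d1.mono_set hsub)]
    apply setIntegral_mono_set d1
    · filter_upwards [self_mem_ae_restrict measurableSet_Ioi] with u hu
      have hu' : (0 : ℝ) < u := hu
      have := Dm_nonneg (α := u / (m : ℝ) ^ 2) (by positivity)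
      simp only [Pi.zero_apply]
      positivity
    · exact (union_subset Ioo_subset_Ioi_self hsub).eventuallyLE
  have key : Ep s (star m) - Ep s x ≤ (m : ℝ) ^ 2 * (1 / Real.Gamma (s / 2) *
      ∫ u in Ioi (0 : ℝ), u ^ (s / 2 - 1) * Dm (u / (m : ℝ) ^ 2)) := by
    rw [a3, b3, ← mul_sub]
    have e : (m : ℝ) ^ 2 * (1 / Real.Gamma (s / 2) *
      ∫ u in Ioi (0 : ℝ), u ^ (s / 2 - 1) * Dm (u / (m : ℝ) ^ 2)) = 1 / Real.Gamma (s / 2) *
      ((m : ℝ) ^ 2 * ∫ u in Ioi (0 : ℝ), u ^ (s / 2 - 1) * Dm (u / (m : ℝ) ^ 2)) := by ring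
    rw [e]
    apply mul_le_mul_of_nonneg_left _ (by positivity)
    nlinarith
  rw [d2] at key
  rw [Real.rpow_add hN, Real.rpow_one]
  linarith

end Pool.Agent.J4.H93.RZ
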