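import Pool.Agent.J4.H93.RZ.Riesz

/-!
# Lower bound for the Riesz energy of `N` points in the unit square
-/

set_option autoImplicit false

open MeasureTheory Set Pool.Agent.TH478.CE Pool.Agent.J4.H93.NS Pool.Agent.J4.H93.NS.MixAux

namespace Pool.Agent.J4.H93.RZ

/-- the unit square -/
def Sq : Set P := {x | ∀ i, 0 ≤ x i ∧ x i ≤ 1}

/-- the Riesz `s`-energy of `N` points, over ordered pairs -/
noncomputable def Er {N : ℕ} (s : ℝ) (x : Fin N → P) : ℝ :=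
  ∑ i, ∑ j, if i = j then 0 else ‖x i - x j‖ ^ (-s)

/-- the minimal energy of `N` points of the unit square -/
noncomputable def Emin (s : ℝ) (N : ℕ) : ℝ :=
  sInf {E : ℝ | ∃ x : Fin N → P, Function.Injective x ∧ (∀ i, x i ∈ Sq) ∧ E = Er s x}

/-- the lattice sum of the hexagonal lattice of density one with shifted squared distances -/
noncomputable def Zs (s : ℝ) : ℝ :=
  ∑' m : {m : ℤ × ℤ // m ≠ 0}, (‖hexPt m.1‖ ^ 2 + 10 ^ (-8 : ℤ)) ^ (-(s / 2))

namespace CubeAux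

/-- sup norm of an integer vector -/
def sn (m : ℤ × ℤ) : ℝ := max |(m.1 : ℝ)| |(m.2 : ℝ)|

theorem sn_nonneg (m : ℤ × ℤ) : 0 ≤ sn m := le_max_of_le_left (abs_nonneg _)

theorem summable_sn {s : ℝ} (hs : 2 < s) : Summable (fun m : ℤ × ℤ => sn m ^ (-s)) := by
  have h := EisensteinSeries.summable_one_div_norm_rpow hs
  have h2 := h.comp_injective (finTwoArrowEquiv ℤ).symm.injective
  refine h2.congr (fun m => ?_)
  simp only [Function.comp]
  congr 1
  unfold sn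
  rw [EisensteinSeries.norm_eq_max_natAbs]
  simp [finTwoArrowEquiv, Nat.cast_natAbs]

theorem sn_pos {m : ℤ × ℤ} (hm : m ≠ 0) : 1 ≤ sn m := by
  have h : m.1 ≠ 0 ∨ m.2 ≠ 0 := by
    by_contra hc
    push Not at hc
    exact hm (Prod.ext hc.1 hc.2)
  unfold sn
  rcases h with h | h
  · apply le_max_of_le_left
    have := Int.one_le_abs h
    exact_mod_cast this
  · apply le_max_of_le_right
    have := Int.one_le_abs h
    exact_mod_cast this

theorem coord_le (x : P) (i : Fin 2) : |x i| ≤ ‖x‖ := by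
  have := PiLp.norm_apply_le x i
  simpa using this

/-- distance to the translates -/
theorem far {δ : ℝ} (hδ : 0 < δ) {u : P} (hu : ∀ i, |u i| ≤ 1) {m : ℤ × ℤ}
    {v : P} (hv0 : v 0 = u 0 + (1 + δ) * m.1) (hv1 : v 1 = u 1 + (1 + δ) * m.2) :
    δ * sn m ≤ ‖v‖ := by
  have key : ∀ (i : Fin 2) (n : ℤ), v i = u i + (1 + δ) * n → δ * |(n : ℝ)| ≤ ‖v‖ := by
    intro i n h
    refine le_trans ?_ (coord_le v i)
    rcases eq_or_ne n 0 with rfl | hn
    · simp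
    · have h1 : (1 : ℝ) ≤ |(n : ℝ)| := by exact_mod_cast Int.one_le_abs hn
      rw [h]
      have h2 := abs_sub_abs_le_abs_sub ((1 + δ) * (n : ℝ)) (-(u i))
      rw [abs_neg, abs_mul, abs_of_pos (by linarith : 0 < 1 + δ), sub_neg_eq_add] at h2
      have h3 := hu i
      rw [add_comm]
      nlinarith
  unfold sn
  rw [mul_max_of_nonneg _ _ hδ.le]
  exact max_le (key 0 _ hv0) (key 1 _ hv1)

theorem latPt_sq (t : ℝ) (m : ℤ × ℤ) (i : Fin 2) :
    latPt (!₂[t, 0] : P) !₂[0, t] m i = t * (if i = 0 then (m.1 : ℝ) else (m.2 : ℝ)) := by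
  unfold latPt
  fin_cases i <;> simp <;> ring

end CubeAux

open CubeAux

/-- the translated difference -/
noncomputable def Dv {N : ℕ} (δ : ℝ) (x : Fin N → P) (j k : Fin N) (m : ℤ × ℤ) : P :=
  x j - x k + latPt (!₂[1 + δ, 0] : P) !₂[0, 1 + δ] m

theorem Dv_coord {N : ℕ} (δ : ℝ) (x : Fin N → P) (j k : Fin N) (m : ℤ × ℤ) :
    Dv δ x j k m 0 = (x j - x k) 0 + (1 + δ) * m.1 ∧
    Dv δ x j k m 1 = (x j - x k) 1 + (1 + δ) * m.2 := by
  constructor
  · unfold Dv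
    rw [PiLp.add_apply, latPt_sq]
    simp
  · unfold Dv
    rw [PiLp.add_apply, latPt_sq]
    simp

theorem diff_le {N : ℕ} {x : Fin N → P} (hS : ∀ i, x i ∈ Sq) (j k : Fin N) (i : Fin 2) :
    |(x j - x k) i| ≤ 1 := by
  have h1 := hS j i
  have h2 := hS k i
  rw [PiLp.sub_apply, abs_le]
  constructor <;> linarith [h1.1, h1.2, h2.1, h2.2]

theorem Dv_far {N : ℕ} {δ : ℝ} (hδ : 0 < δ) {x : Fin N → P} (hS : ∀ i, x i ∈ Sq) (j k : Fin N)
    (m : ℤ × ℤ) : δ * sn m ≤ ‖Dv δ x j k m‖ :=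
  far hδ (diff_le hS j k) (Dv_coord δ x j k m).1 (Dv_coord δ x j k m).2

theorem Dv_zero {N : ℕ} (δ : ℝ) (x : Fin N → P) (j k : Fin N) : Dv δ x j k 0 = x j - x k := by
  ext i
  unfold Dv
  rw [PiLp.add_apply, latPt_sq]
  simp

theorem Dv_eq_zero {N : ℕ} {δ : ℝ} (hδ : 0 < δ) {x : Fin N → P} (hx : Function.Injective x)
    (hS : ∀ i, x i ∈ Sq) {j k : Fin N} {m : ℤ × ℤ} (h : Dv δ x j k m = 0) : j = k ∧ m = 0 := by
  by_cases hm : m = 0
  · refine ⟨?_, hm⟩
    rw [hm, Dv_zero] at h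
    exact hx (sub_eq_zero.1 h)
  · have h1 := Dv_far hδ hS j k m
    rw [h, norm_zero] at h1
    have h2 := sn_pos hm
    nlinarith

theorem Dv_scale {N : ℕ} {δ : ℝ} (hδ : 0 < δ) (x : Fin N → P) (j k : Fin N) (m : ℤ × ℤ) :
    (√N / (1 + δ)) • x j - (√N / (1 + δ)) • x k + latPt (!₂[√N, 0] : P) !₂[0, √N] m =
      (√N / (1 + δ)) • Dv δ x j k m := by
  have h : (1 + δ) ≠ 0 := by positivity
  ext i
  unfold Dv
  rw [PiLp.smul_apply, PiLp.add_apply, PiLp.add_apply, latPt_sq, latPt_sq, PiLp.sub_apply,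
    PiLp.sub_apply, PiLp.smul_apply, PiLp.smul_apply]
  simp only [smul_eq_mul]
  field_simp

theorem isConf_sq {N : ℕ} (hN : 0 < N) {δ : ℝ} (hδ : 0 < δ) {x : Fin N → P}
    (hx : Function.Injective x) (hS : ∀ i, x i ∈ Sq) :
    IsConf (!₂[√N, 0] : P) !₂[0, √N] N (fun i => (√N / (1 + δ)) • x i) := by
  have hN' : (0 : ℝ) < N := by exact_mod_cast hN
  refine ⟨hN, fun j k m h => ?_, ?_⟩
  · rw [Dv_scale hδ] at h
    have h1 : √(N : ℝ) / (1 + δ) ≠ 0 := by positivity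
    exact Dv_eq_zero hδ hx hS ((smul_eq_zero.1 h).resolve_left h1)
  · unfold covol
    simp

open Classical in
theorem inner_le {s δ : ℝ} (hs : 2 < s) (hδ : 0 < δ) {N : ℕ} (hN : 0 < N) {x : Fin N → P}
    (hx : Function.Injective x) (hS : ∀ i, x i ∈ Sq) (j k : Fin N) :
    (∑' m : ℤ × ℤ, if (√N / (1 + δ)) • x j - (√N / (1 + δ)) • x k +
        latPt (!₂[√N, 0] : P) !₂[0, √N] m = 0 then (0 : ENNReal) else
        ENNReal.ofReal (‖(√N / (1 + δ)) • x j - (√N / (1 + δ)) • x k +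
          latPt (!₂[√N, 0] : P) !₂[0, √N] m‖ ^ (-s))) ≤
      ENNReal.ofReal ((√N / (1 + δ)) ^ (-s) * ((if j = k then 0 else ‖x j - x k‖ ^ (-s)) +
        δ ^ (-s) * ∑' m : ℤ × ℤ, sn m ^ (-s))) := by
  have hN' : (0 : ℝ) < N := by exact_mod_cast hN
  have hl : 0 < √(N : ℝ) / (1 + δ) := by positivity
  have hsum : Summable (fun m : ℤ × ℤ => δ ^ (-s) * sn m ^ (-s)) := (summable_sn hs).mul_left _
  have h0 : ∀ m : ℤ × ℤ, 0 ≤ δ ^ (-s) * sn m ^ (-s) := fun m =>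
    mul_nonneg (by positivity) (Real.rpow_nonneg (sn_nonneg m) _)
  have he : 0 ≤ (if j = k then 0 else ‖x j - x k‖ ^ (-s)) := by
    split_ifs
    · exact le_rfl
    · positivity
  have key : ∀ m : ℤ × ℤ, (if (√N / (1 + δ)) • x j - (√N / (1 + δ)) • x k +
        latPt (!₂[√N, 0] : P) !₂[0, √N] m = 0 then (0 : ENNReal) else
        ENNReal.ofReal (‖(√N / (1 + δ)) • x j - (√N / (1 + δ)) • x k +
          latPt (!₂[√N, 0] : P) !₂[0, √N] m‖ ^ (-s))) ≤
      ENNReal.ofReal ((√N / (1 + δ)) ^ (-s)) *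
        ((if m = 0 then ENNReal.ofReal (if j = k then 0 else ‖x j - x k‖ ^ (-s)) else 0) +
          ENNReal.ofReal (δ ^ (-s) * sn m ^ (-s))) := by
    intro m
    rw [Dv_scale hδ]
    by_cases h1 : (√N / (1 + δ)) • Dv δ x j k m = 0
    · rw [if_pos h1]
      exact bot_le
    rw [if_neg h1]
    by_cases h2 : m = 0
    · have h3 : j ≠ k := by
        rintro rfl
        apply h1
        rw [h2, Dv_zero, sub_self, smul_zero]
      rw [if_pos h2, if_neg h3, h2, Dv_zero, norm_smul, Real.norm_eq_abs, abs_of_pos hl,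
        Real.mul_rpow hl.le (norm_nonneg _), ENNReal.ofReal_mul (by positivity)]
      gcongr
      exact le_self_add
    · rw [if_neg h2, norm_smul, Real.norm_eq_abs, abs_of_pos hl,
        Real.mul_rpow hl.le (norm_nonneg _), ENNReal.ofReal_mul (by positivity), zero_add]
      gcongr
      rw [← Real.mul_rpow hδ.le (sn_nonneg m)]
      have h5 := sn_pos h2
      exact Real.rpow_le_rpow_of_nonpos (by positivity) (Dv_far hδ hS j k m) (by linarith)
  refine (ENNReal.tsum_le_tsum key).trans ?_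
  rw [ENNReal.tsum_mul_left, ENNReal.tsum_add, tsum_ite_eq,
    ← ENNReal.ofReal_tsum_of_nonneg h0 hsum, tsum_mul_left,
    ← ENNReal.ofReal_add he (mul_nonneg (by positivity) (tsum_nonneg fun m =>
      Real.rpow_nonneg (sn_nonneg m) _)), ← ENNReal.ofReal_mul (by positivity)]

theorem cube_ge {s δ : ℝ} (hs : 2 < s) (hδ : 0 < δ) {N : ℕ} (hN : 0 < N) {x : Fin N → P}
    (hx : Function.Injective x) (hS : ∀ i, x i ∈ Sq) :
    (N : ℝ) ^ (1 + s / 2) * ((1 + δ) ^ (-s) * ((1 - 10 ^ (-10 : ℤ)) * Zs s)) -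
      (N : ℝ) ^ 2 * (δ ^ (-s) * ∑' m : ℤ × ℤ, sn m ^ (-s)) ≤ Er s x := by
  have hN' : (0 : ℝ) < N := by exact_mod_cast hN
  have hl : 0 < √(N : ℝ) / (1 + δ) := by positivity
  set B : ℝ := δ ^ (-s) * ∑' m : ℤ × ℤ, sn m ^ (-s) with hB
  have hB0 : 0 ≤ B := mul_nonneg (by positivity) (tsum_nonneg fun m =>
      Real.rpow_nonneg (sn_nonneg m) _)
  have h1 := riesz_ge (by linarith : 0 < s) (isConf_sq hN hδ hx hS)
  have h2 : energy (fun r => ENNReal.ofReal (r ^ (-s))) (!₂[√N, 0] : P) !₂[0, √N] N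
      (fun i => (√N / (1 + δ)) • x i) ≤
      (N : ENNReal)⁻¹ * ENNReal.ofReal ((√N / (1 + δ)) ^ (-s) * (Er s x + (N : ℝ) ^ 2 * B)) := by
    unfold energy
    gcongr
    have h3 : ∑ j : Fin N, ∑ k : Fin N, ENNReal.ofReal ((√N / (1 + δ)) ^ (-s) *
        ((if j = k then 0 else ‖x j - x k‖ ^ (-s)) + B)) =
        ENNReal.ofReal ((√N / (1 + δ)) ^ (-s) * (Er s x + (N : ℝ) ^ 2 * B)) := by
      have hnn : ∀ j k : Fin N, 0 ≤ (√N / (1 + δ)) ^ (-s) *
          ((if j = k then 0 else ‖x j - x k‖ ^ (-s)) + B) := by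
        intro j k
        apply mul_nonneg (by positivity) (add_nonneg _ hB0)
        split_ifs
        · exact le_rfl
        · positivity
      rw [Finset.sum_congr rfl fun j _ => (ENNReal.ofReal_sum_of_nonneg
        (fun k _ => hnn j k)).symm, ← ENNReal.ofReal_sum_of_nonneg
        (fun j _ => Finset.sum_nonneg fun k _ => hnn j k)]
      congr 1
      unfold Er
      simp only [← Finset.mul_sum, Finset.sum_add_distrib, Finset.sum_const, Finset.card_univ,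
        Fintype.card_fin, nsmul_eq_mul]
      ring
    rw [← h3]
    exact Finset.sum_le_sum fun j _ => Finset.sum_le_sum fun k _ => by
      convert inner_le hs hδ hN hx hS j k
  have h4 := h1.trans h2
  have h5 : (N : ENNReal)⁻¹ * ENNReal.ofReal ((√N / (1 + δ)) ^ (-s) *
      (Er s x + (N : ℝ) ^ 2 * B)) ≠ ⊤ := by
    apply ENNReal.mul_ne_top _ ENNReal.ofReal_ne_top
    simp [hN.ne']
  have h6 := ENNReal.toReal_mono h5 h4
  have hEr : 0 ≤ Er s x := by
    unfold Er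
    apply Finset.sum_nonneg fun j _ => Finset.sum_nonneg fun k _ => ?_
    split_ifs
    · exact le_rfl
    · positivity
  rw [ENNReal.toReal_mul, ENNReal.toReal_mul, ENNReal.toReal_ofReal (by norm_num),
    ENNReal.tsum_toReal_eq (fun m => ENNReal.ofReal_ne_top), ENNReal.toReal_inv,
    ENNReal.toReal_natCast, ENNReal.toReal_ofReal (by positivity)] at h6
  have h7 : ∑' m : {m : ℤ × ℤ // m ≠ 0},
      (ENNReal.ofReal ((‖hexPt m.1‖ ^ 2 + 10 ^ (-8 : ℤ)) ^ (-(s / 2)))).toReal = Zs s := by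
    unfold Zs
    apply tsum_congr
    intro m
    rw [ENNReal.toReal_ofReal (by positivity)]
  rw [h7] at h6
  have h8 : (√(N : ℝ) / (1 + δ)) ^ s * (N * ((1 - 10 ^ (-10 : ℤ)) * Zs s)) ≤
      Er s x + (N : ℝ) ^ 2 * B := by
    have h9 : (√(N : ℝ) / (1 + δ)) ^ s * (N * ((1 - 10 ^ (-10 : ℤ)) * Zs s)) ≤
        (√(N : ℝ) / (1 + δ)) ^ s * (N * ((N : ℝ)⁻¹ * ((√N / (1 + δ)) ^ (-s) *
          (Er s x + (N : ℝ) ^ 2 * B)))) := by
      gcongr
    refine h9.trans (le_of_eq ?_)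
    rw [Real.rpow_neg hl.le]
    have h10 : (√(N : ℝ) / (1 + δ)) ^ s ≠ 0 := (Real.rpow_pos_of_pos hl s).ne'
    field_simp
  have h11 : (√(N : ℝ) / (1 + δ)) ^ s = (N : ℝ) ^ (s / 2) * (1 + δ) ^ (-s) := by
    rw [Real.div_rpow (Real.sqrt_nonneg _) (by positivity), Real.sqrt_eq_rpow,
      ← Real.rpow_mul hN'.le, Real.rpow_neg (by positivity), div_eq_mul_inv]
    congr 2
    ring
  rw [h11] at h8
  rw [Real.rpow_add hN', Real.rpow_one]
  have e : (N : ℝ) * (N : ℝ) ^ (s / 2) * ((1 + δ) ^ (-s) * ((1 - 10 ^ (-10 : ℤ)) * Zs s)) =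
      (N : ℝ) ^ (s / 2) * (1 + δ) ^ (-s) * (N * ((1 - 10 ^ (-10 : ℤ)) * Zs s)) := by ring
  rw [e]
  linarith

end Pool.Agent.J4.H93.RZ
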