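import Pool.Agent.J4.H93.RZ.Cube

/-!
# The constant `C_{s,2}`
-/

set_option autoImplicit false

open MeasureTheory Set Filter Topology Pool.Agent.TH478.CE Pool.Agent.J4.H93.NS
  Pool.Agent.J4.H93.NS.MixAux

namespace Pool.Agent.J4.H93.RZ

/-- `|Λ₂|^(s/2) ζ_{Λ₂}(s)` for the hexagonal lattice `Λ₂` with unit minimal distance -/
noncomputable def Zh (s : ℝ) : ℝ :=
  (√3 / 2) ^ (s / 2) * ∑' p : {p : ℤ × ℤ // p ≠ 0},
    ((p.1.1 : ℝ) ^ 2 + (p.1.1 : ℝ) * (p.1.2 : ℝ) + (p.1.2 : ℝ) ^ 2) ^ (-(s / 2))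

theorem Emin_set_nonempty (s : ℝ) (N : ℕ) :
    {E : ℝ | ∃ x : Fin N → P, Function.Injective x ∧ (∀ i, x i ∈ Sq) ∧ E = Er s x}.Nonempty := by
  refine ⟨_, fun i => !₂[(i : ℝ) / N, 0], ?_, ?_, rfl⟩
  · intro i j h
    have h1 := congrArg (fun v : P => v 0) h
    simp only [PiLp.toLp_apply, Matrix.cons_val_zero] at h1
    have hN : (N : ℝ) ≠ 0 := by
      have := i.pos
      positivity
    have h2 : (i : ℝ) = (j : ℝ) := by
      field_simp at h1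
      exact h1
    exact Fin.ext (by exact_mod_cast h2)
  · intro i k
    have hN : (0 : ℝ) < N := by
      have := i.pos
      exact_mod_cast this
    have hi : (i : ℝ) ≤ N := by exact_mod_cast i.2.le
    fin_cases k
    · simp
      exact ⟨by positivity, by rw [div_le_one hN]; exact hi⟩
    · simp

theorem Emin_ge {s δ : ℝ} (hs : 2 < s) (hδ : 0 < δ) {N : ℕ} (hN : 0 < N) :
    (1 + δ) ^ (-s) * ((1 - 10 ^ (-10 : ℤ)) * Zs s) -
      (δ ^ (-s) * ∑' m : ℤ × ℤ, CubeAux.sn m ^ (-s)) * (N : ℝ) ^ (-(s / 2 - 1)) ≤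
      Emin s N / (N : ℝ) ^ (1 + s / 2) := by
  have hN' : (0 : ℝ) < N := by exact_mod_cast hN
  have h1 : (N : ℝ) ^ (1 + s / 2) * ((1 + δ) ^ (-s) * ((1 - 10 ^ (-10 : ℤ)) * Zs s)) -
      (N : ℝ) ^ 2 * (δ ^ (-s) * ∑' m : ℤ × ℤ, CubeAux.sn m ^ (-s)) ≤ Emin s N := by
    apply le_csInf (Emin_set_nonempty s N)
    rintro E ⟨x, hx, hS, rfl⟩
    exact cube_ge hs hδ hN hx hS
  rw [le_div_iff₀ (by positivity)]
  refine le_trans (le_of_eq ?_) h1
  have h2 : (N : ℝ) ^ (-(s / 2 - 1)) * (N : ℝ) ^ (1 + s / 2) = (N : ℝ) ^ 2 := by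
    rw [← Real.rpow_add hN', ← Real.rpow_natCast]
    congr 1
    push_cast
    ring
  rw [sub_mul, mul_assoc _ ((N : ℝ) ^ (-(s / 2 - 1))), h2]
  ring

/-- lower bound for the constant -/
theorem C_ge {s C : ℝ} (hs : 2 < s)
    (hC : Tendsto (fun N : ℕ => Emin s N / (N : ℝ) ^ (1 + s / 2)) atTop (𝓝 C)) :
    (1 - 10 ^ (-10 : ℤ)) * Zs s ≤ C := by
  have h1 : ∀ δ : ℝ, 0 < δ → (1 + δ) ^ (-s) * ((1 - 10 ^ (-10 : ℤ)) * Zs s) ≤ C := by
    intro δ hδ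
    have h2 : Tendsto (fun N : ℕ => (1 + δ) ^ (-s) * ((1 - 10 ^ (-10 : ℤ)) * Zs s) -
      (δ ^ (-s) * ∑' m : ℤ × ℤ, CubeAux.sn m ^ (-s)) * (N : ℝ) ^ (-(s / 2 - 1))) atTop
        (𝓝 ((1 + δ) ^ (-s) * ((1 - 10 ^ (-10 : ℤ)) * Zs s) -
          (δ ^ (-s) * ∑' m : ℤ × ℤ, CubeAux.sn m ^ (-s)) * 0)) := by
      apply Tendsto.sub tendsto_const_nhds
      apply Tendsto.const_mul
      exact (tendsto_rpow_neg_atTop (by linarith)).comp tendsto_natCast_atTop_atTop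
    rw [mul_zero, sub_zero] at h2
    refine le_of_tendsto_of_tendsto h2 hC ?_
    filter_upwards [eventually_gt_atTop 0] with N hN
    exact Emin_ge hs hδ hN
  have h3 : Tendsto (fun δ : ℝ => (1 + δ) ^ (-s) * ((1 - 10 ^ (-10 : ℤ)) * Zs s)) (𝓝[>] 0)
      (𝓝 ((1 + 0) ^ (-s) * ((1 - 10 ^ (-10 : ℤ)) * Zs s))) := by
    apply tendsto_nhdsWithin_of_tendsto_nhds
    have hc : ContinuousAt (fun δ : ℝ => (1 + δ) ^ (-s) * ((1 - 10 ^ (-10 : ℤ)) * Zs s)) 0 := by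
      apply ContinuousAt.mul _ continuousAt_const
      apply ContinuousAt.rpow_const
      · fun_prop
      · left
        norm_num
    exact hc.tendsto
  rw [add_zero, Real.one_rpow, one_mul] at h3
  refine le_of_tendsto h3 ?_
  filter_upwards [self_mem_nhdsWithin] with δ hδ
  exact h1 δ hδ

theorem term_eq (s : ℝ) (p : ℤ × ℤ) : (‖hexPt p‖ ^ 2) ^ (-(s / 2)) =
    (√3 / 2) ^ (s / 2) *
      ((p.1 : ℝ) ^ 2 + (p.1 : ℝ) * (p.2 : ℝ) + (p.2 : ℝ) ^ 2) ^ (-(s / 2)) := by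
  rw [hexPt_norm]
  unfold c3 qf
  have h0 := qf_nonneg p
  unfold qf at h0
  rw [Real.mul_rpow (by positivity) h0]
  congr 1
  rw [Real.rpow_neg (by positivity), ← Real.inv_rpow (by positivity), inv_div]

theorem one_le_norm {p : ℤ × ℤ} (hp : p ≠ 0) : 1 ≤ ‖hexPt p‖ ^ 2 := by
  rw [hexPt_norm]
  have h1 : 1 ≤ qf p := by
    have h2 : (1 : ℤ) ≤ p.1 ^ 2 + p.1 * p.2 + p.2 ^ 2 := by
      have h3 : 0 < p.1 ^ 2 + p.1 * p.2 + p.2 ^ 2 := by
        have h4 : p.1 ≠ 0 ∨ p.2 ≠ 0 := by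
          by_contra hc
          push Not at hc
          exact hp (Prod.ext hc.1 hc.2)
        rcases h4 with h | h
        · nlinarith [sq_nonneg (p.1 + 2 * p.2), sq_pos_of_ne_zero h]
        · nlinarith [sq_nonneg (2 * p.1 + p.2), sq_pos_of_ne_zero h]
      linarith
    unfold qf
    exact_mod_cast h2
  have h2 : 1 ≤ c3 := by
    unfold c3
    rw [le_div_iff₀ (by positivity), one_mul]
    apply Real.sqrt_le_iff.2
    norm_num
  nlinarith

theorem summable_hexPt {s : ℝ} (hs : 2 < s) :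
    Summable (fun p : {p : ℤ × ℤ // p ≠ 0} => (‖hexPt p.1‖ ^ 2) ^ (-(s / 2))) := by
  have h1 := ((CubeAux.summable_sn hs).subtype {p : ℤ × ℤ | p ≠ 0}).mul_left
    ((1 / 2 : ℝ) ^ (-s))
  refine Summable.of_nonneg_of_le (fun p => by positivity) (fun p => ?_) h1
  have hsn := CubeAux.sn_pos p.2
  simp only [Function.comp]
  rw [← Real.mul_rpow (by norm_num) (by linarith), ← Real.rpow_natCast ‖hexPt p.1‖ 2,
    ← Real.rpow_mul (norm_nonneg _)]
  rw [show ((2 : ℕ) : ℝ) * (-(s / 2)) = -s by push_cast; ring]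
  apply Real.rpow_le_rpow_of_nonpos (by linarith) _ (by linarith)
  -- `sn p / 2 ≤ ‖hexPt p‖`
  have h2 : (1 / 2 * CubeAux.sn p.1) ^ 2 ≤ ‖hexPt p.1‖ ^ 2 := by
    rw [hexPt_norm]
    have h3 : 1 ≤ c3 := by
      unfold c3
      rw [le_div_iff₀ (by positivity), one_mul]
      apply Real.sqrt_le_iff.2
      norm_num
    have h4 : (1 / 2 * CubeAux.sn p.1) ^ 2 ≤ qf p.1 := by
      unfold CubeAux.sn qf
      rcases max_choice |(p.1.1 : ℝ)| |(p.1.2 : ℝ)| with h | h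
      · rw [h, mul_pow, sq_abs]
        nlinarith [sq_nonneg ((p.1.1 : ℝ) + 2 * p.1.2), sq_nonneg (p.1.1 : ℝ)]
      · rw [h, mul_pow, sq_abs]
        nlinarith [sq_nonneg (2 * (p.1.1 : ℝ) + p.1.2), sq_nonneg (p.1.2 : ℝ)]
    have h5 := qf_nonneg p.1
    nlinarith
  exact le_of_sq_le_sq h2 (norm_nonneg _)

/-- comparison of the shifted lattice sum with the lattice sum -/
theorem Zs_ge {s : ℝ} (hs : 2 < s) : (1 + 10 ^ (-8 : ℤ)) ^ (-(s / 2)) * Zh s ≤ Zs s := by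
  unfold Zs Zh
  rw [← tsum_mul_left, ← tsum_mul_left]
  have hsum := summable_hexPt hs
  apply Summable.tsum_le_tsum
  · intro p
    rw [← term_eq, ← Real.mul_rpow (by positivity) (by positivity)]
    have h1 := one_le_norm p.2
    apply Real.rpow_le_rpow_of_nonpos (by positivity) _ (by linarith)
    have : (0 : ℝ) ≤ 10 ^ (-8 : ℤ) := by positivity
    nlinarith
  · refine (hsum.mul_left ((1 + 10 ^ (-8 : ℤ)) ^ (-(s / 2)))).congr (fun p => ?_)
    rw [term_eq]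
  · refine Summable.of_nonneg_of_le (fun p => by positivity) (fun p => ?_) hsum
    have h1 := one_le_norm p.2
    apply Real.rpow_le_rpow_of_nonpos (by linarith) _ (by linarith)
    have : (0 : ℝ) ≤ 10 ^ (-8 : ℤ) := by positivity
    linarith

end Pool.Agent.J4.H93.RZ
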