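import Mathlib
import Pool.Agent.TH478.CE.Defs
import Pool.Agent.TH478.CE.DualDefs
import Pool.Agent.TH478.CE.Hex

/-!
# Project RZ: periodic Riesz energies on the hexagonal torus: definitions
-/

set_option autoImplicit false

open MeasureTheory Set

namespace Pool.Agent.J4.H93.RZ

open Pool.Agent.TH478.CE

/-- the upper incomplete gamma function `Γ(σ, x) = ∫_x^∞ u^(σ-1) e^(-u) du` -/
noncomputable def Gam (σ x : ℝ) : ℝ := ∫ u in Ioi x, u ^ (σ - 1) * Real.exp (-u)

/-- the dual lattice of the hexagonal lattice `V = {hexPt m}` of covolume `1` -/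
def Dual : Set P := {w | ∀ m : ℤ × ℤ, ∃ n : ℤ, inner ℝ w (hexPt m) = (n : ℝ)}

/-- the periodic Riesz `s`-kernel of the hexagonal lattice of covolume `1`, as a function of
`z = x - y`, for `z` not in the lattice -/
noncomputable def Kp (s : ℝ) (z : P) : ℝ :=
  Real.pi / Real.Gamma (s / 2) * ∑' w : {w : P // w ∈ Dual ∧ w ≠ 0},
      Real.cos (2 * Real.pi * inner ℝ w.1 z) *
        ((Real.pi * ‖w.1‖) ^ (s - 2) * Gam ((2 - s) / 2) (Real.pi ^ 2 * ‖w.1‖ ^ 2)) +
    1 / Real.Gamma (s / 2) * ∑' m : ℤ × ℤ, Gam (s / 2) (‖z + hexPt m‖ ^ 2) / ‖z + hexPt m‖ ^ s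

/-- the periodic Riesz energy of the configuration `x` (with `x i - x j` outside the lattice for
`i ≠ j`) -/
noncomputable def Ep {ι : Type} [Fintype ι] [DecidableEq ι] (s : ℝ) (x : ι → P) : ℝ :=
  ∑ i, ∑ j, if i = j then 0 else Kp s (x i - x j)

/-- the configuration `(1/m) V ∩ Ω` -/
noncomputable def star (m : ℕ) (i : Fin m × Fin m) : P :=
  (1 / (m : ℝ)) • hexPt (((i.1 : ℕ) : ℤ), ((i.2 : ℕ) : ℤ))

/-- points of the dual lattice: the lattice turned by a right angle -/
noncomputable def dualPt (k : ℤ × ℤ) : P := !₂[-(hexPt k) 1, (hexPt k) 0]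

/-- the theta function of the translate `z + V` -/
noncomputable def Th2 (u : ℝ) (z : P) : ℝ := ∑' m : ℤ × ℤ, Real.exp (-(u * ‖z + hexPt m‖ ^ 2))

/-- the sum of the Gaussian over the pairs of a configuration -/
noncomputable def Fu {ι : Type} [Fintype ι] [DecidableEq ι] (u : ℝ) (x : ι → P) : ℝ :=
  ∑ i, ∑ j, if i = j then 0 else Th2 u (x i - x j)

open Classical in
/-- majorant of `En - LP` -/
noncomputable def Dm (α : ℝ) : ℝ :=
  10 ^ (-8 : ℤ) * ((if α ≤ Real.pi then 1 else 0) + 7 * (α * Real.exp (-(α * c3))))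

end Pool.Agent.J4.H93.RZ
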