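import Pool.Agent.J4.H93.RZ.Defs

/-!
# Project RZ, piece GI1: the Mellin integral of a Gaussian over `(1, ∞)`
-/

set_option autoImplicit false

open MeasureTheory Set

namespace Pool.Agent.J4.H93.RZ

open Pool.Agent.TH478.CE

theorem gam_one (σ ρ : ℝ) (hρ : 0 < ρ) :
    IntegrableOn (fun u : ℝ => u ^ (σ - 1) * Real.exp (-(u * ρ ^ 2))) (Ioi 1) ∧
    ∫ u in Ioi (1 : ℝ), u ^ (σ - 1) * Real.exp (-(u * ρ ^ 2)) = ρ ^ (-(2 * σ)) * Gam σ (ρ ^ 2) := by
  have hρ2 : 0 < ρ ^ 2 := by positivity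
  constructor
  · apply integrable_of_isBigO_exp_neg (b := ρ ^ 2 / 2) (by positivity)
    · apply ContinuousOn.mul
      · intro x hx
        have hx0 : x ≠ 0 := by
          have : (1 : ℝ) ≤ x := hx
          linarith
        exact (Real.continuousAt_rpow_const x _ (Or.inl hx0)).continuousWithinAt
      · exact (by fun_prop : Continuous fun u : ℝ => Real.exp (-(u * ρ ^ 2))).continuousOn
    · have h1 := (isLittleO_rpow_exp_pos_mul_atTop (σ - 1) (b := ρ ^ 2 / 2) (by positivity)).isBigO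
      have h2 : (fun x : ℝ => Real.exp (-(x * ρ ^ 2))) =O[Filter.atTop]
          fun x : ℝ => Real.exp (-(x * ρ ^ 2)) := Asymptotics.isBigO_refl _ _
      have h3 := h1.mul h2
      refine h3.congr (fun x => rfl) (fun x => ?_)
      rw [← Real.exp_add]
      congr 1
      ring
  · have h1 := integral_comp_mul_left_Ioi (fun v : ℝ => v ^ (σ - 1) * Real.exp (-v)) 1 hρ2
    rw [mul_one] at h1
    have h2 : ∫ u in Ioi (1 : ℝ), (ρ ^ 2 * u) ^ (σ - 1) * Real.exp (-(ρ ^ 2 * u)) =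
        (ρ ^ 2) ^ (σ - 1) * ∫ u in Ioi (1 : ℝ), u ^ (σ - 1) * Real.exp (-(u * ρ ^ 2)) := by
      rw [← integral_const_mul]
      apply setIntegral_congr_fun measurableSet_Ioi
      intro u hu
      have hu0 : (0 : ℝ) ≤ u := by
        have : (1 : ℝ) < u := hu
        linarith
      simp only
      rw [Real.mul_rpow hρ2.le hu0, mul_comm (ρ ^ 2) u]
      ring
    rw [h2] at h1
    have h3 : (ρ ^ 2) ^ (σ - 1) = ρ ^ (2 * (σ - 1)) := by
      rw [← Real.rpow_natCast ρ 2, ← Real.rpow_mul hρ.le]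
      norm_num
    have h4 : (0 : ℝ) < (ρ ^ 2) ^ (σ - 1) := Real.rpow_pos_of_pos hρ2 _
    have h5 : ρ ^ (-(2 * σ)) * ((ρ ^ 2) ^ (σ - 1) * ρ ^ 2) = 1 := by
      rw [h3, ← Real.rpow_natCast ρ 2, ← Real.rpow_add hρ, ← Real.rpow_add hρ]
      have : -(2 * σ) + (2 * (σ - 1) + ((2 : ℕ) : ℝ)) = 0 := by push_cast; ring
      rw [this, Real.rpow_zero]
    unfold Gam
    rw [smul_eq_mul] at h1
    have h6 : ∫ u in Ioi (ρ ^ 2), u ^ (σ - 1) * Real.exp (-u) =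
        (ρ ^ 2) * ((ρ ^ 2) ^ (σ - 1) * ∫ u in Ioi (1 : ℝ), u ^ (σ - 1) * Real.exp (-(u * ρ ^ 2))) := by
      rw [h1, ← mul_assoc, mul_inv_cancel₀ hρ2.ne', one_mul]
    rw [h6]
    calc ∫ u in Ioi (1 : ℝ), u ^ (σ - 1) * Real.exp (-(u * ρ ^ 2))
        = (ρ ^ (-(2 * σ)) * ((ρ ^ 2) ^ (σ - 1) * ρ ^ 2)) *
          ∫ u in Ioi (1 : ℝ), u ^ (σ - 1) * Real.exp (-(u * ρ ^ 2)) := by rw [h5, one_mul]
      _ = _ := by ring

end Pool.Agent.J4.H93.RZ
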