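import Pool.Agent.J4.H93.RZ.GI1

/-!
# Project RZ, piece K1: the direct part of the Ewald kernel as an integral
-/

set_option autoImplicit false

open MeasureTheory Set

namespace Pool.Agent.J4.H93.RZ

open Pool.Agent.TH478.CE

namespace K1

theorem norm_hexPt_sq (m : ℤ × ℤ) : ‖hexPt m‖ ^ 2 = c3 * qf m := by
  have h1 : ((4 / 3 : ℝ) ^ (1 / 4 : ℝ)) ^ 2 = c3 := by
    have h2 : 0 ≤ (4 / 3 : ℝ) ^ (1 / 4 : ℝ) := by positivity
    have h3 : (((4 / 3 : ℝ) ^ (1 / 4 : ℝ)) ^ 2) ^ 2 = c3 ^ 2 := by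
      rw [c3_sq, ← pow_mul, ← Real.rpow_natCast, ← Real.rpow_mul (by norm_num)]
      norm_num
    exact (pow_left_inj₀ (by positivity) c3_pos.le (by norm_num)).1 h3
  have h4 : (√3 : ℝ) ^ 2 = 3 := Real.sq_sqrt (by norm_num)
  rw [EuclideanSpace.norm_sq_eq, Fin.sum_univ_two]
  unfold hexPt qf
  simp only [PiLp.toLp_apply, Matrix.cons_val_zero, Matrix.cons_val_one, Real.norm_eq_abs, sq_abs]
  rw [mul_pow, mul_pow, h1]
  have : ((m.1 : ℝ) + (m.2 : ℝ) / 2) ^ 2 + (√3 / 2 * (m.2 : ℝ)) ^ 2 =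
      (m.1 : ℝ) ^ 2 + (m.1 : ℝ) * (m.2 : ℝ) + (m.2 : ℝ) ^ 2 := by
    rw [mul_pow, div_pow, h4]
    ring
  rw [← mul_add, this]

theorem summable_shift {a : ℝ} (ha : 0 < a) (z : P) :
    Summable fun m : ℤ × ℤ => Real.exp (-(a * ‖z + hexPt m‖ ^ 2)) := by
  have h := (summable_Th (α := a / 2) (by positivity)).mul_left (Real.exp (a * ‖z‖ ^ 2))
  refine Summable.of_nonneg_of_le (fun p => (Real.exp_pos _).le) (fun m => ?_) h
  rw [← Real.exp_add]
  apply Real.exp_le_exp.2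
  rw [← norm_hexPt_sq]
  have h1 : ‖hexPt m‖ ≤ ‖z + hexPt m‖ + ‖z‖ := by
    calc ‖hexPt m‖ = ‖(z + hexPt m) - z‖ := by congr 1; abel
      _ ≤ _ := norm_sub_le _ _
  have h2 : ‖hexPt m‖ ^ 2 ≤ 2 * ‖z + hexPt m‖ ^ 2 + 2 * ‖z‖ ^ 2 := by
    have h3 := norm_nonneg (hexPt m)
    nlinarith [sq_nonneg (‖z + hexPt m‖ - ‖z‖)]
  nlinarith

theorem int_pos (σ ρ : ℝ) (hρ : 0 < ρ) :
    0 < ∫ u in Ioi (1 : ℝ), u ^ (σ - 1) * Real.exp (-(u * ρ ^ 2)) := by
  have h0 : ∀ u ∈ Ioi (1 : ℝ), 0 < u ^ (σ - 1) * Real.exp (-(u * ρ ^ 2)) := by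
    intro u hu
    have : (0 : ℝ) < u := lt_trans zero_lt_one hu
    positivity
  rw [setIntegral_pos_iff_support_of_nonneg_ae
    ((ae_restrict_mem measurableSet_Ioi).mono fun u hu => (h0 u hu).le) (gam_one σ ρ hρ).1]
  have h1 : Ioi (1 : ℝ) ⊆ (Function.support fun u : ℝ => u ^ (σ - 1) * Real.exp (-(u * ρ ^ 2))) ∩
      Ioi 1 := fun u hu => ⟨(h0 u hu).ne', hu⟩
  refine lt_of_lt_of_le ?_ (measure_mono h1)
  rw [Real.volume_Ioi]
  exact ENNReal.zero_lt_top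

end K1

open K1

theorem kern_one (s : ℝ) (hs : 0 < s) (z : P) (hz : ∀ m : ℤ × ℤ, z + hexPt m ≠ 0) :
    IntegrableOn (fun u : ℝ => u ^ (s / 2 - 1) * Th2 u z) (Ioi 1) ∧
    ∑' m : ℤ × ℤ, Gam (s / 2) (‖z + hexPt m‖ ^ 2) / ‖z + hexPt m‖ ^ s =
      ∫ u in Ioi (1 : ℝ), u ^ (s / 2 - 1) * Th2 u z := by
  have hρ : ∀ m : ℤ × ℤ, 0 < ‖z + hexPt m‖ := fun m => norm_pos_iff.2 (hz m)
  set F : ℤ × ℤ → ℝ → ℝ := fun m u => u ^ (s / 2 - 1) * Real.exp (-(u * ‖z + hexPt m‖ ^ 2))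
    with hF
  have hnn : ∀ m, ∀ u ∈ Ioi (1 : ℝ), 0 ≤ F m u := by
    intro m u hu
    have : (0 : ℝ) < u := lt_trans zero_lt_one hu
    simp only [hF]
    positivity
  have hint : ∀ m, Integrable (F m) (volume.restrict (Ioi 1)) := fun m =>
    (gam_one (s / 2) _ (hρ m)).1
  have hnorm : ∀ m, ∫ u in Ioi (1 : ℝ), ‖F m u‖ = ∫ u in Ioi (1 : ℝ), F m u := by
    intro m
    apply setIntegral_congr_fun measurableSet_Ioi
    intro u hu
    exact Real.norm_of_nonneg (hnn m u hu)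
  obtain ⟨g1, -⟩ := gam_one (s / 2) (1 / 2) (by norm_num)
  set C : ℝ := ∫ u in Ioi (1 : ℝ), u ^ (s / 2 - 1) * Real.exp (-(u * (1 / 2 : ℝ) ^ 2)) with hC
  have hsum : Summable fun m => ∫ u in Ioi (1 : ℝ), ‖F m u‖ := by
    have h1 := (summable_shift (a := 1 / 2) (by norm_num) z).mul_left C
    refine Summable.of_norm_bounded_eventually h1 ?_
    have h2 := (summable_shift (a := 1) (by norm_num) z).tendsto_cofinite_zero
    have h3 := h2.eventually (gt_mem_nhds (Real.exp_pos (-1)))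
    filter_upwards [h3] with m hm
    have h4 : 1 < ‖z + hexPt m‖ ^ 2 := by
      have := Real.exp_lt_exp.1 hm
      linarith
    rw [hnorm m, Real.norm_of_nonneg (setIntegral_nonneg measurableSet_Ioi (hnn m))]
    calc ∫ u in Ioi (1 : ℝ), F m u
        ≤ ∫ u in Ioi (1 : ℝ), (u ^ (s / 2 - 1) * Real.exp (-(u * (1 / 2 : ℝ) ^ 2))) *
          Real.exp (-(1 / 2 * ‖z + hexPt m‖ ^ 2)) := by
          apply setIntegral_mono_on (hint m) (g1.mul_const _) measurableSet_Ioi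
          intro u hu
          have hu1 : (1 : ℝ) < u := hu
          have hu0 : (0 : ℝ) < u := lt_trans zero_lt_one hu1
          simp only [hF]
          rw [mul_assoc, ← Real.exp_add]
          apply mul_le_mul_of_nonneg_left _ (Real.rpow_nonneg hu0.le _)
          apply Real.exp_le_exp.2
          nlinarith
      _ = C * Real.exp (-(1 / 2 * ‖z + hexPt m‖ ^ 2)) := by rw [integral_mul_const]
  have hhas := hasSum_integral_of_summable_integral_norm hint hsum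
  have hTh : ∀ u : ℝ, ∑' m, F m u = u ^ (s / 2 - 1) * Th2 u z := by
    intro u
    unfold Th2
    rw [← tsum_mul_left]
  simp only [hTh] at hhas
  have hval : ∀ m, ∫ u in Ioi (1 : ℝ), F m u =
      Gam (s / 2) (‖z + hexPt m‖ ^ 2) / ‖z + hexPt m‖ ^ s := by
    intro m
    have h1 := (gam_one (s / 2) _ (hρ m)).2
    simp only [hF]
    rw [h1]
    have h2 : -(2 * (s / 2)) = -s := by ring
    rw [h2, Real.rpow_neg (norm_nonneg _)]
    field_simp
  constructor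
  · by_contra hcon
    have h1 : ∫ u in Ioi (1 : ℝ), u ^ (s / 2 - 1) * Th2 u z = 0 := integral_undef hcon
    rw [h1] at hhas
    have h2 : ∀ m, 0 ≤ ∫ u in Ioi (1 : ℝ), F m u := fun m =>
      setIntegral_nonneg measurableSet_Ioi (hnn m)
    have h3 := (hasSum_zero_iff_of_nonneg h2).1 hhas
    have h4 := congrFun h3 (0 : ℤ × ℤ)
    have h5 := int_pos (s / 2) _ (hρ 0)
    simp only [hF, Pi.zero_apply] at h4
    linarith
  · rw [← hhas.tsum_eq]
    exact tsum_congr fun m => (hval m).symm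

end Pool.Agent.J4.H93.RZ
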