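import Pool.Agent.J4.H93.NS.Final2

/-!
# Riesz energies of periodic configurations
-/

set_option autoImplicit false

open MeasureTheory Set Pool.Agent.TH478.CE Pool.Agent.J4.H93.NS Pool.Agent.J4.H93.NS.MixAux

namespace Pool.Agent.J4.H93.RZ

/-- the Bernstein measure of `r ^ (-s)` as a function of `r²` -/
noncomputable def rzM (s : ℝ) : Measure ℝ :=
  (volume.restrict (Ioi 0)).withDensity
    (fun α => ENNReal.ofReal (α ^ (s / 2 - 1) / Real.Gamma (s / 2)))

theorem rzM_Iic (s : ℝ) : rzM s (Iic 0) = 0 := by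
  have h : (volume.restrict (Ioi (0 : ℝ))) (Iic 0) = 0 := by
    rw [Measure.restrict_apply measurableSet_Iic]
    have : Iic (0 : ℝ) ∩ Ioi 0 = ∅ := by
      ext x
      simp
    rw [this, measure_empty]
  exact withDensity_absolutelyContinuous _ _ h

theorem mix_rzM {s : ℝ} (hs : 0 < s) {r : ℝ} (hr : 0 < r) :
    mix (rzM s) r = ENNReal.ofReal (r ^ (-s)) := by
  have hG : 0 < Real.Gamma (s / 2) := Real.Gamma_pos_of_pos (by positivity)
  have hm : Measurable (fun α : ℝ => ENNReal.ofReal (α ^ (s / 2 - 1) / Real.Gamma (s / 2))) := by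
    fun_prop
  have h1 : mix (rzM s) r = ∫⁻ α in Ioi (0 : ℝ),
      ENNReal.ofReal (α ^ (s / 2 - 1) / Real.Gamma (s / 2) * Real.exp (-α * r ^ 2)) := by
    unfold mix rzM
    rw [lintegral_withDensity_eq_lintegral_mul _ hm (by fun_prop)]
    apply setLIntegral_congr_fun measurableSet_Ioi
    intro α hα
    have hα' : (0 : ℝ) < α := hα
    simp only [Pi.mul_apply]
    rw [← ENNReal.ofReal_mul (by positivity)]
  have h2 : ∫ α in Ioi (0 : ℝ), α ^ (s / 2 - 1) * Real.exp (-(r ^ 2 * α)) =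
      (1 / r ^ 2) ^ (s / 2) * Real.Gamma (s / 2) :=
    Real.integral_rpow_mul_exp_neg_mul_Ioi (by positivity) (by positivity)
  have h3 : ∫ α in Ioi (0 : ℝ), α ^ (s / 2 - 1) / Real.Gamma (s / 2) * Real.exp (-α * r ^ 2) =
      r ^ (-s) := by
    have e : ∀ α : ℝ, α ^ (s / 2 - 1) / Real.Gamma (s / 2) * Real.exp (-α * r ^ 2) =
        (Real.Gamma (s / 2))⁻¹ * (α ^ (s / 2 - 1) * Real.exp (-(r ^ 2 * α))) := by
      intro α
      rw [show -α * r ^ 2 = -(r ^ 2 * α) by ring]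
      ring
    simp_rw [e]
    rw [integral_const_mul, h2]
    rw [one_div, Real.inv_rpow (by positivity), ← Real.rpow_natCast r 2, ← Real.rpow_mul hr.le,
      Real.rpow_neg hr.le]
    have e2 : ((2 : ℕ) : ℝ) * (s / 2) = s := by push_cast; ring
    rw [e2]
    field_simp
  have h4 : Integrable (fun α : ℝ => α ^ (s / 2 - 1) / Real.Gamma (s / 2) *
      Real.exp (-α * r ^ 2)) (volume.restrict (Ioi 0)) := by
    by_contra hn
    have h5 := integral_undef hn
    rw [h3] at h5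
    have : 0 < r ^ (-s) := by positivity
    linarith
  rw [h1, ← h3, ofReal_integral_eq_lintegral_ofReal h4]
  filter_upwards [self_mem_ae_restrict measurableSet_Ioi] with α hα
  have hα' : (0 : ℝ) < α := hα
  simp only [Pi.zero_apply]
  positivity

/-- near-optimality of the hexagonal lattice for Riesz energies -/
theorem riesz_ge {s : ℝ} (hs : 0 < s) {a b : P} {N : ℕ} {x : Fin N → P} (h : IsConf a b N x) :
    ENNReal.ofReal (1 - 10 ^ (-10 : ℤ)) * ∑' m : {m : ℤ × ℤ // m ≠ 0},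
      ENNReal.ofReal ((‖hexPt m.1‖ ^ 2 + 10 ^ (-8 : ℤ)) ^ (-(s / 2))) ≤
      energy (fun r => ENNReal.ofReal (r ^ (-s))) a b N x := by
  have h1 := mix_shift (rzM s) (rzM_Iic s) h
  have e1 : ∀ m : {m : ℤ × ℤ // m ≠ 0}, mix (rzM s) (√(‖hexPt m.1‖ ^ 2 + 10 ^ (-8 : ℤ))) =
      ENNReal.ofReal ((‖hexPt m.1‖ ^ 2 + 10 ^ (-8 : ℤ)) ^ (-(s / 2))) := by
    intro m
    have h0 : 0 < ‖hexPt m.1‖ ^ 2 + 10 ^ (-8 : ℤ) := by positivity
    rw [mix_rzM hs (Real.sqrt_pos.2 h0)]
    congr 1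
    rw [Real.sqrt_eq_rpow, ← Real.rpow_mul h0.le]
    congr 1
    ring
  rw [tsum_congr e1] at h1
  have e2 : energy (mix (rzM s)) a b N x = energy (fun r => ENNReal.ofReal (r ^ (-s))) a b N x := by
    unfold energy
    congr 1
    refine Finset.sum_congr rfl fun j _ => Finset.sum_congr rfl fun k _ => tsum_congr fun m => ?_
    split_ifs with h0
    · rfl
    · exact mix_rzM hs (norm_pos_iff.2 h0)
  rwa [e2] at h1

end Pool.Agent.J4.H93.RZ
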