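import Pool.Agent.J4.H93.RZ.CubeLim

/-!
# Upper bound for the constant `C_{s,2}`: points of the hexagonal lattice in the unit square
-/

set_option autoImplicit false

open MeasureTheory Set Filter Topology Pool.Agent.TH478.CE Pool.Agent.J4.H93.NS
  Pool.Agent.J4.H93.NS.MixAux

namespace Pool.Agent.J4.H93.RZ

namespace Up

theorem hexPt_sub (p q : ℤ × ℤ) : hexPt p - hexPt q = hexPt (p - q) := by
  ext k
  fin_cases k
  · simp [hexPt]
    ring
  · simp [hexPt]
    ring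

theorem Zh_eq (s : ℝ) : Zh s = ∑' p : {p : ℤ × ℤ // p ≠ 0}, (‖hexPt p.1‖ ^ 2) ^ (-(s / 2)) := by
  unfold Zh
  rw [← tsum_mul_left]
  exact tsum_congr fun p => (term_eq s p.1).symm

theorem sum_le {s : ℝ} (hs : 2 < s) {N : ℕ} (φ : Fin N → ℤ × ℤ) (hφ : Function.Injective φ)
    (i : Fin N) :
    ∑ j, (if i = j then 0 else (‖hexPt (φ i - φ j)‖ ^ 2) ^ (-(s / 2))) ≤ Zh s := by
  classical
  rw [Zh_eq]
  let ψ : {j : Fin N // ¬ i = j} → {p : ℤ × ℤ // p ≠ 0} := fun j =>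
    ⟨φ i - φ j.1, fun h => j.2 (hφ (sub_eq_zero.1 h))⟩
  have hψ : Function.Injective ψ := by
    intro j k h
    have h1 : φ i - φ j.1 = φ i - φ k.1 := congrArg Subtype.val h
    exact Subtype.ext (hφ (sub_right_injective h1))
  rw [Finset.sum_ite, Finset.sum_const_zero, zero_add,
    Finset.sum_subtype (Finset.univ.filter fun j => ¬ i = j) (p := fun j => ¬ i = j) (by simp)]
  have h1 : ∑ j : {j : Fin N // ¬ i = j}, (‖hexPt (φ i - φ j.1)‖ ^ 2) ^ (-(s / 2)) =
      ∑ p ∈ Finset.univ.map ⟨ψ, hψ⟩, (‖hexPt p.1‖ ^ 2) ^ (-(s / 2)) := by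
    rw [Finset.sum_map]
    rfl
  rw [h1]
  exact (summable_hexPt hs).sum_le_tsum _ (fun _ _ => by positivity)

theorem Er_le {s : ℝ} (hs : 2 < s) {N : ℕ} (φ : Fin N → ℤ × ℤ) (hφ : Function.Injective φ)
    {h : ℝ} (hh : 0 < h) :
    Er s (fun i => h • hexPt (φ i)) ≤ N * ((h ^ 2) ^ (-(s / 2)) * Zh s) := by
  unfold Er
  have h1 : ∀ i : Fin N, ∑ j, (if i = j then 0 else
      ‖h • hexPt (φ i) - h • hexPt (φ j)‖ ^ (-s)) ≤ (h ^ 2) ^ (-(s / 2)) * Zh s := by
    intro i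
    refine le_trans (le_of_eq ?_)
      (mul_le_mul_of_nonneg_left (sum_le hs φ hφ i) (by positivity))
    rw [Finset.mul_sum]
    refine Finset.sum_congr rfl fun j _ => ?_
    split_ifs with hij
    · rw [mul_zero]
    · rw [← smul_sub, hexPt_sub, norm_smul, Real.norm_of_nonneg hh.le,
        ← Real.mul_rpow (by positivity) (by positivity), ← mul_pow,
        ← Real.rpow_natCast _ 2, ← Real.rpow_mul (by positivity)]
      congr 1
      push_cast
      ring
  calc ∑ i : Fin N, ∑ j, (if i = j then 0 else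
      ‖h • hexPt (φ i) - h • hexPt (φ j)‖ ^ (-s))
      ≤ ∑ _i : Fin N, (h ^ 2) ^ (-(s / 2)) * Zh s := Finset.sum_le_sum fun i _ => h1 i
    _ = _ := by rw [Finset.sum_const, Finset.card_univ, Fintype.card_fin, nsmul_eq_mul]

/-- the points -/
theorem exists_points {θ : ℝ} (h0 : 0 < θ) (h1 : θ < 1) {N : ℕ} (hN0 : 0 < N)
    (hN : c3 * θ ≤ N * (1 - θ) ^ 2) :
    ∃ φ : Fin N → ℤ × ℤ, Function.Injective φ ∧ ∀ i, √(θ / N) • hexPt (φ i) ∈ Sq := by
  have hN' : (0 : ℝ) < N := by exact_mod_cast hN0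
  set h : ℝ := √(θ / N) with hh
  have hh0 : 0 < h := Real.sqrt_pos.2 (by positivity)
  have hh2 : h ^ 2 = θ / N := Real.sq_sqrt (by positivity)
  set a : ℝ := (4 / 3 : ℝ) ^ (1 / 4 : ℝ) with ha
  have ha0 : 0 < a := by positivity
  have hc := c3_pos
  have hc2 := c3_sq
  have ha2 : a ^ 2 = c3 := by
    have h3 : (a ^ 2) ^ 2 = c3 ^ 2 := by
      rw [c3_sq, ha, ← pow_mul, ← Real.rpow_natCast, ← Real.rpow_mul (by norm_num)]
      norm_num
    exact (pow_left_inj₀ (by positivity) c3_pos.le (by norm_num)).1 h3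
  have h3c : √3 / 2 * c3 = 1 := by
    have h4 : (√3 / 2 * c3) ^ 2 = 1 ^ 2 := by
      rw [mul_pow, div_pow, hc2, Real.sq_sqrt (by norm_num)]
      norm_num
    exact (pow_left_inj₀ (by positivity) (by norm_num) (by norm_num)).1 h4
  set L : ℝ := 1 / (h * a) with hL
  have hL0 : 0 < L := by positivity
  have hLh : h * a * L = 1 := by rw [hL]; field_simp
  have hL2 : c3 * L ^ 2 = N / θ := by
    rw [hL, ← ha2, div_pow, mul_pow, hh2]
    field_simp
  have hkey : c3 * L ≤ N / θ - N := by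
    have h5 : (c3 * L) ^ 2 ≤ (N / θ - N) ^ 2 := by
      have e1 : (c3 * L) ^ 2 = c3 * (N / θ) := by rw [← hL2]; ring
      have e2 : (N / θ - N : ℝ) ^ 2 = (N / θ) * ((N * (1 - θ) ^ 2) / θ) := by
        field_simp
      rw [e1, e2, mul_comm]
      apply mul_le_mul_of_nonneg_left _ (by positivity)
      rw [le_div_iff₀ h0]
      exact hN
    have h6 : (0 : ℝ) ≤ N / θ - N := by
      rw [sub_nonneg, le_div_iff₀ h0]
      nlinarith
    exact le_of_sq_le_sq h5 h6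
  -- the number of points
  set A : ℕ := ⌊L⌋₊ with hA
  set K : ℕ := ⌊c3 * L⌋₊ + 1 with hK
  have hA1 : L - 1 ≤ A := by
    have := Nat.lt_floor_add_one L
    linarith
  have hA2 : (A : ℝ) ≤ L := Nat.floor_le hL0.le
  have hK1 : c3 * L ≤ K := by
    have := (Nat.lt_floor_add_one (c3 * L)).le
    rw [hK]
    push_cast
    exact this
  have hcard : N ≤ A * K := by
    have : (N : ℝ) ≤ (A : ℝ) * K := by
      have h7 : (L - 1) * (c3 * L) ≤ (A : ℝ) * K := by
        calc (L - 1) * (c3 * L) ≤ A * (c3 * L) := by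
              apply mul_le_mul_of_nonneg_right hA1 (by positivity)
          _ ≤ A * K := mul_le_mul_of_nonneg_left hK1 (Nat.cast_nonneg _)
      have h8 : (L - 1) * (c3 * L) = c3 * L ^ 2 - c3 * L := by ring
      rw [h8, hL2] at h7
      linarith
    exact_mod_cast this
  have hemb : Nonempty (Fin N ↪ Fin A × Fin K) := by
    rw [Function.Embedding.nonempty_iff_card_le]
    simpa using hcard
  obtain ⟨f⟩ := hemb
  have hha : 0 < h * a := by positivity
  have general : ∀ (u w : ℕ), (u : ℝ) + 1 ≤ A → (w : ℝ) ≤ c3 * L →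
      h • hexPt ((u : ℤ) - ((w / 2 : ℕ) : ℤ), (w : ℤ)) ∈ Sq := by
    intro u w b1 b2
    have b3 : ((w / 2 : ℕ) : ℝ) ≤ (w : ℝ) / 2 ∧ (w : ℝ) / 2 ≤ ((w / 2 : ℕ) : ℝ) + 1 / 2 := by
      have e1 : 2 * (w / 2) ≤ w := Nat.mul_div_le w 2
      have e2 : w ≤ 2 * (w / 2) + 1 := by omega
      have e3 : (2 : ℝ) * ((w / 2 : ℕ) : ℝ) ≤ w := by exact_mod_cast e1
      have e4 : (w : ℝ) ≤ 2 * ((w / 2 : ℕ) : ℝ) + 1 := by exact_mod_cast e2
      constructor <;> linarith
    generalize (w / 2 : ℕ) = t at b3 ⊢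
    have c0 : (h • hexPt ((u : ℤ) - (t : ℤ), (w : ℤ))) 0 =
        h * a * ((u : ℝ) - (t : ℝ) + (w : ℝ) / 2) := by
      simp only [hexPt, PiLp.smul_apply, smul_eq_mul]
      simp only [Matrix.cons_val_zero]
      rw [← ha]
      push_cast
      ring
    have c1 : (h • hexPt ((u : ℤ) - (t : ℤ), (w : ℤ))) 1 =
        h * a * (√3 / 2 * (w : ℝ)) := by
      simp only [hexPt, PiLp.smul_apply, smul_eq_mul]
      simp only [Matrix.cons_val_one]
      rw [← ha]
      push_cast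
      ring
    have hu0 : (0 : ℝ) ≤ u := Nat.cast_nonneg _
    have hw0 : (0 : ℝ) ≤ w := Nat.cast_nonneg _
    intro k
    fin_cases k
    · change 0 ≤ (h • hexPt ((u : ℤ) - (t : ℤ), (w : ℤ))) 0 ∧
        (h • hexPt ((u : ℤ) - (t : ℤ), (w : ℤ))) 0 ≤ 1
      rw [c0]
      constructor
      · apply mul_nonneg hha.le
        linarith [b3.1]
      · rw [← hLh]
        apply mul_le_mul_of_nonneg_left _ hha.le
        linarith [b3.2]
    · change 0 ≤ (h • hexPt ((u : ℤ) - (t : ℤ), (w : ℤ))) 1 ∧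
        (h • hexPt ((u : ℤ) - (t : ℤ), (w : ℤ))) 1 ≤ 1
      rw [c1]
      constructor
      · positivity
      · rw [← hLh]
        apply mul_le_mul_of_nonneg_left _ hha.le
        calc √3 / 2 * (w : ℝ) ≤ √3 / 2 * (c3 * L) :=
              mul_le_mul_of_nonneg_left b2 (by positivity)
          _ = (√3 / 2 * c3) * L := by ring
          _ = L := by rw [h3c, one_mul]
  refine ⟨fun i => (((f i).1 : ℕ) - (((f i).2 : ℕ) / 2 : ℕ), ((f i).2 : ℕ)), ?_, ?_⟩
  · intro i j hij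
    simp only [Prod.mk.injEq] at hij
    obtain ⟨e1, e2⟩ := hij
    have e3 : ((f i).2 : ℕ) = ((f j).2 : ℕ) := by exact_mod_cast e2
    rw [e3] at e1
    have e4 : ((f i).1 : ℕ) = ((f j).1 : ℕ) := by omega
    exact f.injective (Prod.ext (Fin.ext e4) (Fin.ext e3))
  · intro i
    have b1 : (((f i).1 : ℕ) : ℝ) + 1 ≤ A := by exact_mod_cast (f i).1.2
    have b2 : (((f i).2 : ℕ) : ℝ) ≤ c3 * L := by
      have h9 : ((f i).2 : ℕ) ≤ ⌊c3 * L⌋₊ := Nat.lt_succ_iff.1 (f i).2.2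
      calc (((f i).2 : ℕ) : ℝ) ≤ (⌊c3 * L⌋₊ : ℝ) := by exact_mod_cast h9
        _ ≤ _ := Nat.floor_le (by positivity)
    exact general _ _ b1 b2

theorem Emin_le {s θ : ℝ} (hs : 2 < s) (h0 : 0 < θ) (h1 : θ < 1) {N : ℕ} (hN0 : 0 < N)
    (hN : c3 * θ ≤ N * (1 - θ) ^ 2) :
    Emin s N / (N : ℝ) ^ (1 + s / 2) ≤ θ ^ (-(s / 2)) * Zh s := by
  have hN' : (0 : ℝ) < N := by exact_mod_cast hN0
  obtain ⟨φ, hφ, hS⟩ := exists_points h0 h1 hN0 hN
  have hh0 : 0 < √(θ / N) := Real.sqrt_pos.2 (by positivity)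
  have hinj : Function.Injective fun i => √(θ / N) • hexPt (φ i) := by
    intro i j hij
    have h2 : hexPt (φ i) = hexPt (φ j) := smul_right_injective P hh0.ne' hij
    by_contra hne
    have h3 : φ i - φ j ≠ 0 := fun h => hne (hφ (sub_eq_zero.1 h))
    have h4 := one_le_norm h3
    rw [← hexPt_sub, h2, sub_self, norm_zero] at h4
    norm_num at h4
  have h2 : Emin s N ≤ Er s (fun i => √(θ / N) • hexPt (φ i)) := by
    apply csInf_le
    · refine ⟨0, ?_⟩
      rintro E ⟨x, -, -, rfl⟩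
      unfold Er
      refine Finset.sum_nonneg fun i _ => Finset.sum_nonneg fun j _ => ?_
      split_ifs
      · exact le_rfl
      · positivity
    · exact ⟨_, hinj, hS, rfl⟩
  have h3 := h2.trans (Er_le hs φ hφ hh0)
  rw [Real.sq_sqrt (by positivity)] at h3
  rw [div_le_iff₀ (by positivity)]
  refine h3.trans (le_of_eq ?_)
  rw [Real.rpow_add hN', Real.rpow_one, Real.div_rpow h0.le hN'.le,
    Real.rpow_neg hN'.le (s / 2)]
  field_simp

end Up

/-- upper bound for the constant -/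
theorem C_le {s C : ℝ} (hs : 2 < s)
    (hC : Tendsto (fun N : ℕ => Emin s N / (N : ℝ) ^ (1 + s / 2)) atTop (𝓝 C)) : C ≤ Zh s := by
  have h1 : ∀ θ : ℝ, 0 < θ → θ < 1 → C ≤ θ ^ (-(s / 2)) * Zh s := by
    intro θ h0 h1
    refine le_of_tendsto hC ?_
    have h2 : Tendsto (fun N : ℕ => (N : ℝ) * (1 - θ) ^ 2) atTop atTop :=
      tendsto_natCast_atTop_atTop.atTop_mul_const (by nlinarith)
    filter_upwards [h2.eventually_ge_atTop (c3 * θ), eventually_gt_atTop 0] with N hN hN0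
    exact Up.Emin_le hs h0 h1 hN0 hN
  have h3 : Tendsto (fun θ : ℝ => θ ^ (-(s / 2)) * Zh s) (𝓝[<] 1)
      (𝓝 ((1 : ℝ) ^ (-(s / 2)) * Zh s)) := by
    apply tendsto_nhdsWithin_of_tendsto_nhds
    have hc : ContinuousAt (fun θ : ℝ => θ ^ (-(s / 2)) * Zh s) 1 := by
      apply ContinuousAt.mul _ continuousAt_const
      apply ContinuousAt.rpow_const
      · exact continuousAt_id
      · left
        norm_num
    exact hc.tendsto
  rw [Real.one_rpow, one_mul] at h3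
  refine ge_of_tendsto h3 ?_
  have h4 : ∀ᶠ θ : ℝ in 𝓝[<] 1, 0 < θ :=
    (lt_mem_nhds (show (0 : ℝ) < 1 by norm_num)).filter_mono nhdsWithin_le_nhds
  filter_upwards [self_mem_nhdsWithin, h4] with θ hθ hθ0
  exact h1 θ hθ0 hθ

end Pool.Agent.J4.H93.RZ
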